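import Mathlib

/-!
# Families of reversible chains, entropy distance, the three conditions: definitions
-/

open Filter Topology

namespace Pool.Agent.Helper98.EntropyCutoff

/-- An irreducible reversible Markov chain on the finite set `Ω`: a Markov kernel `K` with its
stationary (reversible) probability distribution `st`. -/
structure RevChain (Ω : Type) [Fintype Ω] where
  /-- the Markov kernel -/
  K : Matrix Ω Ω ℝ
  /-- the stationary distribution -/
  st : Ω → ℝ
  K_nonneg : ∀ x y, 0 ≤ K x y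
  K_sum : ∀ x, ∑ y, K x y = 1
  st_pos : ∀ x, 0 < st x
  st_sum : ∑ x, st x = 1
  reversible : ∀ x y, st x * K x y = st y * K y x
  irreducible : ∀ x y, Relation.ReflTransGen (fun a b => 0 < K a b) x y

variable {Ω : Type} [Fintype Ω] [DecidableEq Ω]

/-- The heat kernel `H_t = exp (- t (I - K))` of the continuous-time chain. -/
noncomputable def RevChain.heat (C : RevChain Ω) (t : ℝ) : Matrix Ω Ω ℝ :=
  NormedSpace.exp (t • (C.K - 1))

/-- The Dirichlet form `E(f, f) = (1/2) ∑ (f x - f y) ^ 2 π x K x y`. -/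
noncomputable def RevChain.energy (C : RevChain Ω) (f : Ω → ℝ) : ℝ :=
  (1 / 2) * ∑ x, ∑ y, (f x - f y) ^ 2 * (C.st x * C.K x y)

/-- The variance of `f` under the stationary distribution. -/
noncomputable def RevChain.var (C : RevChain Ω) (f : Ω → ℝ) : ℝ :=
  ∑ x, C.st x * f x ^ 2 - (∑ x, C.st x * f x) ^ 2

/-- The spectral gap of `I - K`, the minimum of `E(f, f) / Var f` over all `f` with `Var f ≠ 0`. -/
noncomputable def RevChain.gap (C : RevChain Ω) : ℝ :=
  sInf {r | ∃ f : Ω → ℝ, C.var f ≠ 0 ∧ r = C.energy f / C.var f}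

/-- The worst-case relative entropy `d(t) = max_x ∑_y H_t(x,y) log (H_t(x,y) / π(y))`. -/
noncomputable def RevChain.ent (C : RevChain Ω) (t : ℝ) : ℝ :=
  ⨆ x, ∑ y, C.heat t x y * Real.log (C.heat t x y / C.st y)

/-- The mixing time `inf {t ≥ 0 : d(t) ≤ ε}`. -/
noncomputable def RevChain.mix (C : RevChain Ω) (ε : ℝ) : ℝ :=
  sInf {t : ℝ | 0 ≤ t ∧ C.ent t ≤ ε}

/-- `M = limsup_n d_n(0)`. -/
noncomputable def initial {N : ℕ → ℕ} (C : ∀ n, RevChain (Fin (N n))) : EReal :=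
  limsup (fun n => (((C n).ent 0 : ℝ) : EReal)) atTop

/-- Condition (1): `λ_n t_n → ∞`. -/
def ProductCondition {N : ℕ → ℕ} (C : ∀ n, RevChain (Fin (N n))) (ε : ℝ) : Prop :=
  Tendsto (fun n => (C n).gap * (C n).mix ε) atTop atTop

/-- Condition (2): cutoff at time `t_n`. -/
def Cutoff {N : ℕ → ℕ} (C : ∀ n, RevChain (Fin (N n))) (ε : ℝ) : Prop :=
  ∀ δ : ℝ, 0 < δ → δ < 1 →
    Tendsto (fun n => (C n).ent ((1 + δ) * (C n).mix ε)) atTop (𝓝 0) ∧
    Tendsto (fun n => (((C n).ent ((1 - δ) * (C n).mix ε) : ℝ) : EReal)) atTop (𝓝 (initial C))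

/-- A `(t_n, b_n)` cutoff. -/
def WindowCutoff {N : ℕ → ℕ} (C : ∀ n, RevChain (Fin (N n))) (ε : ℝ) (b : ℕ → ℝ) : Prop :=
  (∀ n, 0 < b n) ∧ Tendsto (fun n => b n / (C n).mix ε) atTop (𝓝 0) ∧
  Tendsto (fun c : ℝ =>
    limsup (fun n => (((C n).ent ((C n).mix ε + c * b n) : ℝ) : EReal)) atTop) atTop (𝓝 0) ∧
  Tendsto (fun c : ℝ =>
    liminf (fun n => (((C n).ent ((C n).mix ε + c * b n) : ℝ) : EReal)) atTop) atBot
      (𝓝 (initial C))

end Pool.Agent.Helper98.EntropyCutoff
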