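import Mathlib
import Pool.Agent.Helper98.EntropyCutoff.Defs

/-!
# General facts on finite reversible chains: heat kernel, comparison, gap, entropy bounds
-/

open Filter Topology

namespace Pool.Agent.Helper98.EntropyCutoff

variable {Ω : Type} [Fintype Ω] [DecidableEq Ω]

namespace RevChain

variable (C : RevChain Ω)

/-- the generator acting on functions -/
noncomputable def gen (f : Ω → ℝ) (x : Ω) : ℝ := ∑ y, C.K x y * (f y - f x)

lemma gen_eq (f : Ω → ℝ) (x : Ω) : C.gen f x = ((C.K - 1).mulVec f) x := by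
  rw [Matrix.sub_mulVec, Matrix.one_mulVec, Pi.sub_apply]
  simp only [gen, Matrix.mulVec, dotProduct, mul_sub, Finset.sum_sub_distrib]
  rw [← Finset.sum_mul, C.K_sum, one_mul]

/-- the heat semigroup acting on functions -/
noncomputable def semi (t : ℝ) (f : Ω → ℝ) (x : Ω) : ℝ := ∑ y, C.heat t x y * f y

lemma semi_eq (t : ℝ) (f : Ω → ℝ) (x : Ω) : C.semi t f x = ((C.heat t).mulVec f) x := rfl

lemma heat_zero : C.heat 0 = 1 := by
  simp [heat, NormedSpace.exp_zero]

lemma semi_zero (f : Ω → ℝ) (x : Ω) : C.semi 0 f x = f x := by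
  rw [semi_eq, heat_zero, Matrix.one_mulVec]

open scoped Matrix.Norms.Operator in
lemma hasDerivAt_heat (t : ℝ) : HasDerivAt C.heat (C.heat t * (C.K - 1)) t :=
  hasDerivAt_exp_smul_const (C.K - 1) t

open scoped Matrix.Norms.Operator in
lemma hasDerivAt_semi (f : Ω → ℝ) (x : Ω) (t : ℝ) :
    HasDerivAt (fun s => C.semi s f x) (C.semi t (C.gen f) x) t := by
  have h1 := C.hasDerivAt_heat t
  let L : Matrix Ω Ω ℝ →ₗ[ℝ] ℝ :=
    { toFun := fun M => (M.mulVec f) x
      map_add' := fun A B => by simp [Matrix.add_mulVec]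
      map_smul' := fun c A => by simp [Matrix.smul_mulVec] }
  have h2 := (LinearMap.toContinuousLinearMap L).hasFDerivAt (x := C.heat t)
  have h3 := h2.comp_hasDerivAt t h1
  have h4 : (LinearMap.toContinuousLinearMap L) (C.heat t * (C.K - 1)) = C.semi t (C.gen f) x := by
    change ((C.heat t * (C.K - 1)).mulVec f) x = _
    rw [← Matrix.mulVec_mulVec, semi_eq]
    congr 1
    congr 1
    funext y
    exact (C.gen_eq f y).symm
  exact h3.congr_deriv h4

lemma heat_eq (t : ℝ) : C.heat t = Real.exp (-t) • NormedSpace.exp (t • C.K) := by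
  open scoped Matrix.Norms.Operator in
  have h1 : t • (C.K - 1) = t • C.K + (-t) • (1 : Matrix Ω Ω ℝ) := by
    rw [smul_sub, sub_eq_add_neg, neg_smul]
  rw [heat, h1, Matrix.exp_add_of_commute]
  · have : NormedSpace.exp ((-t) • (1 : Matrix Ω Ω ℝ)) = Real.exp (-t) • (1 : Matrix Ω Ω ℝ) := by
      have e1 : (-t) • (1 : Matrix Ω Ω ℝ) = Matrix.diagonal (fun _ => -t) := by
        ext i j
        by_cases h : i = j
        · subst h; simp
        · simp [h]
      have e2 : Real.exp (-t) • (1 : Matrix Ω Ω ℝ) = Matrix.diagonal (fun _ => Real.exp (-t)) := by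
        ext i j
        by_cases h : i = j
        · subst h; simp
        · simp [h]
      rw [e1, e2, Matrix.exp_diagonal]
      congr 1
      funext i
      rw [Pi.coe_exp, ← Real.exp_eq_exp_ℝ]
    rw [this]
    simp
  · exact (Commute.one_right _).smul_right _

open scoped Matrix.Norms.Operator in
lemma exp_nonneg (A : Matrix Ω Ω ℝ) (hA : ∀ x y, 0 ≤ A x y) (x y : Ω) :
    0 ≤ (NormedSpace.exp A) x y := by
  have hs := NormedSpace.exp_series_hasSum_exp' (𝕂 := ℝ) A
  have hpow : ∀ n : ℕ, ∀ x y, 0 ≤ (A ^ n) x y := by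
    intro n
    induction n with
    | zero =>
      intro x y
      simp only [pow_zero, Matrix.one_apply]
      split_ifs <;> norm_num
    | succ n ih =>
      intro x y
      rw [pow_succ, Matrix.mul_apply]
      exact Finset.sum_nonneg fun z _ => mul_nonneg (ih x z) (hA z y)
  let L : Matrix Ω Ω ℝ →ₗ[ℝ] ℝ :=
    { toFun := fun M => M x y
      map_add' := fun A B => rfl
      map_smul' := fun c A => rfl }
  have h2 := (LinearMap.toContinuousLinearMap L).hasSum hs
  refine h2.nonneg fun n => ?_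
  change 0 ≤ ((n.factorial : ℝ)⁻¹ • A ^ n) x y
  rw [Matrix.smul_apply, smul_eq_mul]
  exact mul_nonneg (by positivity) (hpow n x y)

lemma heat_nonneg {t : ℝ} (ht : 0 ≤ t) (x y : Ω) : 0 ≤ C.heat t x y := by
  rw [heat_eq, Matrix.smul_apply, smul_eq_mul]
  refine mul_nonneg (Real.exp_pos _).le (exp_nonneg _ (fun x y => ?_) x y)
  rw [Matrix.smul_apply, smul_eq_mul]
  exact mul_nonneg ht (C.K_nonneg x y)

lemma gen_const (c : ℝ) (x : Ω) : C.gen (fun _ => c) x = 0 := by
  simp [gen]

lemma semi_const (c t : ℝ) (x : Ω) : C.semi t (fun _ => c) x = c := by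
  have h : ∀ s : ℝ, HasDerivAt (fun s => C.semi s (fun _ => c) x) 0 s := by
    intro s
    have := C.hasDerivAt_semi (fun _ => c) x s
    have e : C.gen (fun _ => c) = fun _ => (0 : ℝ) := funext fun y => C.gen_const c y
    rw [e] at this
    simpa [semi] using this
  have h2 := is_const_of_deriv_eq_zero (f := fun s => C.semi s (fun _ => c) x)
    (fun s => (h s).differentiableAt) (fun s => (h s).deriv) t 0
  rw [h2, semi_zero]

lemma heat_sum (t : ℝ) (x : Ω) : ∑ y, C.heat t x y = 1 := by
  have := C.semi_const 1 t x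
  simpa [semi] using this

lemma heat_le_one {t : ℝ} (ht : 0 ≤ t) (x y : Ω) : C.heat t x y ≤ 1 := by
  rw [← C.heat_sum t x]
  exact Finset.single_le_sum (fun z _ => C.heat_nonneg ht x z) (Finset.mem_univ y)

lemma semi_mono {t : ℝ} (ht : 0 ≤ t) {f g : Ω → ℝ} (h : ∀ y, f y ≤ g y) (x : Ω) :
    C.semi t f x ≤ C.semi t g x :=
  Finset.sum_le_sum fun y _ => mul_le_mul_of_nonneg_left (h y) (C.heat_nonneg ht x y)

lemma semi_add (t : ℝ) (f g : Ω → ℝ) (x : Ω) :
    C.semi t (fun y => f y + g y) x = C.semi t f x + C.semi t g x := by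
  simp [semi, mul_add, Finset.sum_add_distrib]

lemma semi_smul (t c : ℝ) (f : Ω → ℝ) (x : Ω) :
    C.semi t (fun y => c * f y) x = c * C.semi t f x := by
  simp only [semi, Finset.mul_sum]
  exact Finset.sum_congr rfl fun y _ => by ring

/-- comparison: `A f ≤ - κ f + β` implies `H_t f ≤ e^{-κ t} f + β t` -/
lemma semi_le {f : Ω → ℝ} {κ β : ℝ} (hκ : 0 ≤ κ) (hβ : 0 ≤ β)
    (h : ∀ y, C.gen f y ≤ -κ * f y + β) {t : ℝ} (ht : 0 ≤ t) (x : Ω) :
    C.semi t f x ≤ Real.exp (-κ * t) * f x + β * t := by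
  set Φ : ℝ → ℝ := fun s => Real.exp (κ * s) * (C.semi s f x - β * s) with hΦ
  have hd : ∀ s, HasDerivAt Φ (Real.exp (κ * s) * κ * (C.semi s f x - β * s)
      + Real.exp (κ * s) * (C.semi s (C.gen f) x - β)) s := by
    intro s
    have h1 : HasDerivAt (fun s => Real.exp (κ * s)) (Real.exp (κ * s) * κ) s := by
      have := (hasDerivAt_id s).const_mul κ
      simpa using this.exp
    have h2 : HasDerivAt (fun s => C.semi s f x - β * s) (C.semi s (C.gen f) x - β) s := by
      have h3 := (hasDerivAt_id s).const_mul β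
      simp only [id, mul_one] at h3
      exact (C.hasDerivAt_semi f x s).sub h3
    exact h1.mul h2
  have hanti : AntitoneOn Φ (Set.Ici 0) := by
    refine antitoneOn_of_deriv_nonpos (convex_Ici 0)
      (fun s _ => (hd s).continuousAt.continuousWithinAt)
      (fun s _ => (hd s).differentiableAt.differentiableWithinAt) ?_
    intro s hs
    rw [interior_Ici] at hs
    rw [(hd s).deriv]
    have hs0 : (0 : ℝ) ≤ s := le_of_lt hs
    have h4 : C.semi s (C.gen f) x ≤ -κ * C.semi s f x + β := by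
      have := C.semi_mono hs0 h x
      rwa [semi_add, semi_smul, semi_const] at this
    have h5 : 0 < Real.exp (κ * s) := Real.exp_pos _
    have h6 : Real.exp (κ * s) * κ * (C.semi s f x - β * s)
      + Real.exp (κ * s) * (C.semi s (C.gen f) x - β)
      = Real.exp (κ * s) * (κ * (C.semi s f x - β * s) + (C.semi s (C.gen f) x - β)) := by ring
    rw [h6]
    refine mul_nonpos_of_nonneg_of_nonpos h5.le ?_
    have : 0 ≤ κ * (β * s) := by positivity
    linarith
  have h7 := hanti (Set.mem_Ici.2 le_rfl) (Set.mem_Ici.2 ht) ht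
  simp only [hΦ, mul_zero, Real.exp_zero, one_mul, sub_zero, semi_zero] at h7
  have h8 : C.semi t f x - β * t = Real.exp (-κ * t) * (Real.exp (κ * t) *
      (C.semi t f x - β * t)) := by
    rw [← mul_assoc, ← Real.exp_add]
    simp
  have h9 := mul_le_mul_of_nonneg_left h7 (Real.exp_pos (-κ * t)).le
  rw [← h8] at h9
  linarith

/-- comparison from below -/
lemma le_semi {f g : Ω → ℝ} {β₁ β₂ : ℝ} (hβ₂ : 0 ≤ β₂)
    (h : ∀ y, -g y - β₁ ≤ C.gen f y) (hg : ∀ y, C.gen g y ≤ β₂) {t : ℝ} (ht : 0 ≤ t) (x : Ω) :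
    f x - t * (g x + β₁) - β₂ * t ^ 2 ≤ C.semi t f x := by
  set Φ : ℝ → ℝ := fun s => C.semi s f x + (s * (g x + β₁) + β₂ * s ^ 2) with hΦ
  have hd : ∀ s, HasDerivAt Φ (C.semi s (C.gen f) x + ((g x + β₁) + β₂ * (2 * s))) s := by
    intro s
    refine (C.hasDerivAt_semi f x s).add (HasDerivAt.add ?_ ?_)
    · simpa using (hasDerivAt_id s).mul_const (g x + β₁)
    · have := (hasDerivAt_pow 2 s).const_mul β₂
      simpa using this
  have hmono : MonotoneOn Φ (Set.Ici 0) := by
    refine monotoneOn_of_deriv_nonneg (convex_Ici 0)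
      (fun s _ => (hd s).continuousAt.continuousWithinAt)
      (fun s _ => (hd s).differentiableAt.differentiableWithinAt) ?_
    intro s hs
    rw [interior_Ici] at hs
    rw [(hd s).deriv]
    have hs0 : (0 : ℝ) ≤ s := le_of_lt hs
    have h4 : -C.semi s g x - β₁ ≤ C.semi s (C.gen f) x := by
      have := C.semi_mono hs0 h x
      have e : (fun y => -g y - β₁) = fun y => (-1 : ℝ) * g y + (-β₁) := by
        funext y
        ring
      rw [e, semi_add, semi_smul, semi_const] at this
      linarith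
    have h5 : C.semi s g x ≤ g x + β₂ * s := by
      have := C.semi_le (f := g) (κ := 0) (β := β₂) le_rfl hβ₂ (by simpa using hg) hs0 x
      simpa using this
    have : 0 ≤ β₂ * s := mul_nonneg hβ₂ hs0
    linarith
  have h7 := hmono (Set.mem_Ici.2 le_rfl) (Set.mem_Ici.2 ht) ht
  simp only [hΦ, semi_zero] at h7
  linarith

/-- Dirichlet form as `⟨(I - K) f, g⟩` -/
lemma sum_gen (f g : Ω → ℝ) :
    ∑ x, C.st x * (g x * (-C.gen f x))
      = (1 / 2) * ∑ x, ∑ y, (g x - g y) * (f x - f y) * (C.st x * C.K x y) := by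
  have h1 : ∑ x, C.st x * (g x * (-C.gen f x))
      = ∑ x, ∑ y, g x * (f x - f y) * (C.st x * C.K x y) := by
    refine Finset.sum_congr rfl fun x _ => ?_
    rw [gen, ← Finset.sum_neg_distrib, Finset.mul_sum, Finset.mul_sum]
    exact Finset.sum_congr rfl fun y _ => by ring
  have h2 : ∑ x, ∑ y, g x * (f x - f y) * (C.st x * C.K x y)
      = ∑ x, ∑ y, g y * (f y - f x) * (C.st x * C.K x y) := by
    rw [Finset.sum_comm]
    refine Finset.sum_congr rfl fun x _ => Finset.sum_congr rfl fun y _ => ?_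
    rw [C.reversible y x]
  rw [h1]
  have h3 : ∑ x, ∑ y, (g x - g y) * (f x - f y) * (C.st x * C.K x y)
      = ∑ x, ∑ y, g x * (f x - f y) * (C.st x * C.K x y)
        + ∑ x, ∑ y, g y * (f y - f x) * (C.st x * C.K x y) := by
    rw [← Finset.sum_add_distrib]
    refine Finset.sum_congr rfl fun x _ => ?_
    rw [← Finset.sum_add_distrib]
    exact Finset.sum_congr rfl fun y _ => by ring
  rw [h3, ← h2]
  ring

/-- A function `V` which is positive off `b`, vanishes at `b` and satisfies `A V ≤ - c V` off `b`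
bounds the spectral gap from below by `c`. -/
lemma energy_ge {V : Ω → ℝ} {b : Ω} {c : ℝ} (hVb : V b = 0) (hV : ∀ x, x ≠ b → 0 < V x)
    (h : ∀ x, x ≠ b → C.gen V x ≤ -c * V x) (hc : 0 ≤ c) (f : Ω → ℝ) :
    c * C.var f ≤ C.energy f := by
  set u : Ω → ℝ := fun x => f x - f b with hu
  set ψ : Ω → ℝ := fun x => u x ^ 2 / V x with hψ
  have hub : u b = 0 := by simp [hu]
  have hψb : ψ b = 0 := by simp [hψ, hub]
  have hV0 : ∀ x, 0 ≤ V x := fun x => by
    by_cases hx : x = b
    · rw [hx, hVb]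
    · exact (hV x hx).le
  have hψV : ∀ x, ψ x * V x = u x ^ 2 := by
    intro x
    by_cases hx : x = b
    · rw [hx, hVb, hub]; ring
    · simp only [hψ]
      field_simp [(hV x hx).ne']
  have hψ0 : ∀ x, 0 ≤ ψ x := fun x => div_nonneg (sq_nonneg _) (hV0 x)
  -- pointwise inequality
  have hpt : ∀ x y, (ψ x - ψ y) * (V x - V y) ≤ (f x - f y) ^ 2 := by
    intro x y
    have e : f x - f y = u x - u y := by simp [hu]
    rw [e]
    have e1 := hψV x
    have e2 := hψV y
    have key : 2 * (u x * u y) ≤ ψ x * V y + ψ y * V x := by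
      by_cases hx : x = b
      · rw [hx, hψb, hVb, hub]; simp
      · by_cases hy : y = b
        · rw [hy, hψb, hVb, hub]; simp
        · have vx := hV x hx
          have vy := hV y hy
          have : ψ x * V y + ψ y * V x - 2 * (u x * u y)
              = (u x * V y - u y * V x) ^ 2 / (V x * V y) := by
            simp only [hψ]
            field_simp
            ring
          have h3 : 0 ≤ (u x * V y - u y * V x) ^ 2 / (V x * V y) := by positivity
          linarith
    nlinarith
  have h1 : ∑ x, C.st x * (ψ x * (-C.gen V x)) ≤ C.energy f := by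
    rw [C.sum_gen V ψ, energy]
    refine mul_le_mul_of_nonneg_left ?_ (by norm_num)
    refine Finset.sum_le_sum fun x _ => Finset.sum_le_sum fun y _ => ?_
    exact mul_le_mul_of_nonneg_right (hpt x y) (mul_nonneg (C.st_pos x).le (C.K_nonneg x y))
  have h2 : c * ∑ x, C.st x * u x ^ 2 ≤ ∑ x, C.st x * (ψ x * (-C.gen V x)) := by
    rw [Finset.mul_sum]
    refine Finset.sum_le_sum fun x _ => ?_
    by_cases hx : x = b
    · rw [hx, hψb, hub]; simp
    · have := h x hx
      have h4 : c * u x ^ 2 ≤ ψ x * (-C.gen V x) := by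
        rw [← hψV x]
        nlinarith [hψ0 x]
      nlinarith [C.st_pos x]
  have h3 : C.var f ≤ ∑ x, C.st x * u x ^ 2 := by
    have e : ∑ x, C.st x * u x ^ 2
        = ∑ x, C.st x * f x ^ 2 - 2 * f b * ∑ x, C.st x * f x + f b ^ 2 := by
      have : ∀ x, C.st x * u x ^ 2
          = C.st x * f x ^ 2 - 2 * f b * (C.st x * f x) + f b ^ 2 * C.st x := fun x => by
        simp only [hu]
        ring
      simp_rw [this, Finset.sum_add_distrib, Finset.sum_sub_distrib, ← Finset.mul_sum, C.st_sum]
      ring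
    rw [e, var]
    nlinarith [sq_nonneg (∑ x, C.st x * f x - f b)]
  calc c * C.var f ≤ c * ∑ x, C.st x * u x ^ 2 := mul_le_mul_of_nonneg_left h3 hc
    _ ≤ _ := h2.trans h1

lemma var_nonneg (f : Ω → ℝ) : 0 ≤ C.var f := by
  have e : C.var f = ∑ x, C.st x * (f x - ∑ y, C.st y * f y) ^ 2 := by
    set a := ∑ y, C.st y * f y with ha
    have : ∀ x, C.st x * (f x - a) ^ 2
        = C.st x * f x ^ 2 - 2 * a * (C.st x * f x) + a ^ 2 * C.st x := fun x => by ring
    simp_rw [this, Finset.sum_add_distrib, Finset.sum_sub_distrib, ← Finset.mul_sum, C.st_sum,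
      ← ha, var]
    rw [← ha]
    ring
  rw [e]
  exact Finset.sum_nonneg fun x _ => mul_nonneg (C.st_pos x).le (sq_nonneg _)

lemma gap_ge {V : Ω → ℝ} {b : Ω} {c : ℝ} (hVb : V b = 0) (hV : ∀ x, x ≠ b → 0 < V x)
    (h : ∀ x, x ≠ b → C.gen V x ≤ -c * V x) (hc : 0 ≤ c) (hne : ∃ f, C.var f ≠ 0) :
    c ≤ C.gap := by
  obtain ⟨f, hf⟩ := hne
  refine le_csInf ⟨_, f, hf, rfl⟩ ?_
  rintro r ⟨g, hg, rfl⟩
  have hpos : 0 < C.var g := lt_of_le_of_ne (C.var_nonneg g) (Ne.symm hg)
  rw [le_div_iff₀ hpos]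
  exact C.energy_ge hVb hV h hc g

/-- the relative entropy from the starting point `x` -/
noncomputable def entAt (t : ℝ) (x : Ω) : ℝ :=
  ∑ y, C.heat t x y * Real.log (C.heat t x y / C.st y)

lemma entAt_le_ent (t : ℝ) (x : Ω) : C.entAt t x ≤ C.ent t :=
  le_ciSup (f := fun x => C.entAt t x) (Set.finite_range _).bddAbove x

lemma ent_le [Nonempty Ω] {t B : ℝ} (h : ∀ x, C.entAt t x ≤ B) : C.ent t ≤ B :=
  ciSup_le h

lemma entAt_le {t : ℝ} (ht : 0 ≤ t) (x : Ω) {W : Ω → ℝ} (hW : ∀ y, -Real.log (C.st y) ≤ W y) :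
    C.entAt t x ≤ C.semi t W x := by
  refine Finset.sum_le_sum fun y _ => ?_
  have h0 := C.heat_nonneg ht x y
  have h1 := C.heat_le_one ht x y
  refine mul_le_mul_of_nonneg_left ?_ h0
  rcases h0.eq_or_lt with h | h
  · rw [← h, zero_div, Real.log_zero]
    refine le_trans ?_ (hW y)
    have : C.st y ≤ 1 := by
      rw [← C.st_sum]
      exact Finset.single_le_sum (fun z _ => (C.st_pos z).le) (Finset.mem_univ y)
    have := Real.log_nonpos (C.st_pos y).le this
    linarith
  · rw [Real.log_div h.ne' (C.st_pos y).ne']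
    have := Real.log_nonpos h0 h1
    linarith [hW y]

/-- Gibbs variational inequality -/
lemma le_entAt {t : ℝ} (ht : 0 ≤ t) (x : Ω) (f : Ω → ℝ) {Z : ℝ} (hZ : 0 < Z)
    (hf : ∑ y, C.st y * Real.exp (f y) ≤ Z) :
    C.semi t f x - Real.log Z ≤ C.entAt t x := by
  have key : ∀ y, C.heat t x y - C.st y * Real.exp (f y) / Z
      ≤ C.heat t x y * Real.log (C.heat t x y / C.st y) - C.heat t x y * f y
        + C.heat t x y * Real.log Z := by
    intro y
    have h0 := C.heat_nonneg ht x y
    have hs := C.st_pos y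
    rcases h0.eq_or_lt with h | h
    · rw [← h]
      have : 0 ≤ C.st y * Real.exp (f y) / Z := by positivity
      simp
      exact this
    · set a := C.heat t x y with ha
      have e1 : Real.log (a / C.st y) - f y + Real.log Z
          = Real.log (a * Z / (C.st y * Real.exp (f y))) := by
        rw [Real.log_div h.ne' hs.ne', Real.log_div (by positivity) (by positivity),
          Real.log_mul h.ne' hZ.ne', Real.log_mul hs.ne' (Real.exp_pos _).ne', Real.log_exp]
        ring
      have e2 : 1 - (a * Z / (C.st y * Real.exp (f y)))⁻¹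
          ≤ Real.log (a * Z / (C.st y * Real.exp (f y))) :=
        Real.one_sub_inv_le_log_of_pos (by positivity)
      have e3 : a * (1 - (a * Z / (C.st y * Real.exp (f y)))⁻¹)
          = a - C.st y * Real.exp (f y) / Z := by
        field_simp
      calc a - C.st y * Real.exp (f y) / Z
          = a * (1 - (a * Z / (C.st y * Real.exp (f y)))⁻¹) := e3.symm
        _ ≤ a * Real.log (a * Z / (C.st y * Real.exp (f y))) :=
            mul_le_mul_of_nonneg_left e2 h0
        _ = a * (Real.log (a / C.st y) - f y + Real.log Z) := by rw [e1]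
        _ = _ := by ring
  have hsum := Finset.sum_le_sum fun y (_ : y ∈ Finset.univ) => key y
  simp only [Finset.sum_sub_distrib, Finset.sum_add_distrib, ← Finset.sum_div, ← Finset.sum_mul,
    C.heat_sum, one_mul] at hsum
  have h1 : (∑ y, C.st y * Real.exp (f y)) / Z ≤ 1 := by
    rw [div_le_one hZ]
    exact hf
  simp only [entAt, semi]
  linarith

end RevChain

end Pool.Agent.Helper98.EntropyCutoff
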