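import Mathlib
import Pool.Agent.Helper98.EntropyCutoff.Basic

/-!
# The counterexample family
-/

open Filter Topology

namespace Pool.Agent.Helper98.EntropyCutoff

/-- probability of the slow branch -/
noncomputable def pr (m : ℕ) : ℝ := 1 / (m : ℝ) ^ 2

/-- forward rate of the step `i → i + 1` -/
noncomputable def fw (m i : ℕ) : ℝ := if i = m then pr m else 1

/-- jump rates (twice the transition probabilities) -/
noncomputable def rate (m i j : ℕ) : ℝ :=
  (if j = i + 1 then fw m i else 0) + (if i = j + 1 then fw m j * Real.exp (-m) else 0)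
    + (if i = m ∧ j = 2 * m then 1 - pr m else 0)
    + (if i = 2 * m ∧ j = m then (1 - pr m) * Real.exp (-(m * m)) else 0)

/-- action of the jump rates on a function -/
noncomputable def act (m : ℕ) (F : ℕ → ℝ) (i : ℕ) : ℝ :=
  (if i < 2 * m then fw m i * (F (i + 1) - F i) else 0)
    + (if 0 < i then fw m (i - 1) * Real.exp (-m) * (F (i - 1) - F i) else 0)
    + (if i = m then (1 - pr m) * (F (2 * m) - F m) else 0)
    + (if i = 2 * m then (1 - pr m) * Real.exp (-(m * m)) * (F m - F (2 * m)) else 0)

lemma sum_rate (m : ℕ) (F : ℕ → ℝ) (i : ℕ) (hi : i ≤ 2 * m) :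
    ∑ j : Fin (2 * m + 1), rate m i j * (F j - F i) = act m F i := by
  rw [Fin.sum_univ_eq_sum_range (fun j => rate m i j * (F j - F i)) (2 * m + 1)]
  simp only [rate, add_mul, Finset.sum_add_distrib, act]
  congr 1
  congr 1
  congr 1
  · simp only [ite_mul, zero_mul]
    rw [Finset.sum_ite_eq']
    by_cases h : i < 2 * m
    · rw [if_pos (by simp; omega), if_pos h]
    · rw [if_neg (by simp; omega), if_neg h]
  · by_cases h : 0 < i
    · rw [if_pos h]
      have : ∀ j, (if i = j + 1 then fw m j * Real.exp (-m) else 0) * (F j - F i)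
          = if j = i - 1 then fw m j * Real.exp (-m) * (F j - F i) else 0 := by
        intro j
        by_cases hj : i = j + 1
        · rw [if_pos hj, if_pos (by omega)]
        · rw [if_neg hj, if_neg (by omega), zero_mul]
      simp_rw [this]
      rw [Finset.sum_ite_eq', if_pos (by simp; omega)]
    · rw [if_neg h]
      refine Finset.sum_eq_zero fun j _ => ?_
      rw [if_neg (by omega), zero_mul]
  · by_cases h : i = m
    · rw [if_pos h]
      have : ∀ j, (if i = m ∧ j = 2 * m then 1 - pr m else 0) * (F j - F i)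
          = if j = 2 * m then (1 - pr m) * (F j - F i) else 0 := by
        intro j
        by_cases hj : j = 2 * m
        · rw [if_pos ⟨h, hj⟩, if_pos hj]
        · rw [if_neg (fun h' => hj h'.2), if_neg hj, zero_mul]
      simp_rw [this]
      rw [Finset.sum_ite_eq', if_pos (by simp), h]
    · rw [if_neg h]
      refine Finset.sum_eq_zero fun j _ => ?_
      rw [if_neg (fun h' => h h'.1), zero_mul]
  · by_cases h : i = 2 * m
    · rw [if_pos h]
      have : ∀ j, (if i = 2 * m ∧ j = m then (1 - pr m) * Real.exp (-(m * m)) else 0) * (F j - F i)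
          = if j = m then (1 - pr m) * Real.exp (-(m * m)) * (F j - F i) else 0 := by
        intro j
        by_cases hj : j = m
        · rw [if_pos ⟨h, hj⟩, if_pos hj]
        · rw [if_neg (fun h' => hj h'.2), if_neg hj, zero_mul]
      simp_rw [this]
      rw [Finset.sum_ite_eq', if_pos (by simp; omega), h]
    · rw [if_neg h]
      refine Finset.sum_eq_zero fun j _ => ?_
      rw [if_neg (fun h' => h h'.1), zero_mul]

lemma pr_pos {m : ℕ} (hm : 2 ≤ m) : 0 < pr m := by
  have : (0 : ℝ) < m := by exact_mod_cast (by omega : 0 < m)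
  simp only [pr]
  positivity

lemma pr_le {m : ℕ} (hm : 2 ≤ m) : pr m ≤ 1 / 4 := by
  have : (2 : ℝ) ≤ m := by exact_mod_cast hm
  simp only [pr]
  rw [div_le_div_iff₀ (by positivity) (by norm_num)]
  nlinarith

lemma fw_pos {m : ℕ} (hm : 2 ≤ m) (i : ℕ) : 0 < fw m i := by
  simp only [fw]
  split_ifs
  · exact pr_pos hm
  · exact one_pos

lemma fw_le {m : ℕ} (hm : 2 ≤ m) (i : ℕ) : fw m i ≤ 1 := by
  simp only [fw]
  split_ifs
  · linarith [pr_le hm]
  · exact le_rfl

lemma rate_nonneg {m : ℕ} (hm : 2 ≤ m) (i j : ℕ) : 0 ≤ rate m i j := by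
  have h1 := fw_pos hm i
  have h2 := fw_pos hm j
  have h3 := pr_le hm
  have h4 := Real.exp_pos (-(m : ℝ))
  have h5 := Real.exp_pos (-((m : ℝ) * m))
  simp only [rate]
  refine add_nonneg (add_nonneg (add_nonneg ?_ ?_) ?_) ?_ <;> split_ifs <;>
    first | positivity | (apply mul_nonneg <;> linarith) | linarith

/-- unnormalised stationary weights -/
noncomputable def wt (m i : ℕ) : ℝ := Real.exp (m * i)

lemma wt_rate (m : ℕ) (hm : 2 ≤ m) (i j : ℕ) : wt m i * rate m i j = wt m j * rate m j i := by
  simp only [rate, mul_add]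
  have e1 : wt m i * (if j = i + 1 then fw m i else 0)
      = wt m j * (if j = i + 1 then fw m i * Real.exp (-m) else 0) := by
    split_ifs with h
    · subst h
      simp only [wt]
      push_cast
      rw [← mul_assoc, mul_comm (Real.exp (m * (i + 1))) (fw m i), mul_assoc, ← Real.exp_add,
        mul_comm]
      congr 2
      ring
    · simp
  have e2 : wt m i * (if i = j + 1 then fw m j * Real.exp (-m) else 0)
      = wt m j * (if i = j + 1 then fw m j else 0) := by
    split_ifs with h
    · subst h
      simp only [wt]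
      push_cast
      rw [← mul_assoc, mul_comm (Real.exp (m * (j + 1))) (fw m j), mul_assoc, ← Real.exp_add,
        mul_comm]
      congr 2
      ring
    · simp
  have e3 : wt m i * (if i = m ∧ j = 2 * m then 1 - pr m else 0)
      = wt m j * (if j = 2 * m ∧ i = m then (1 - pr m) * Real.exp (-(m * m)) else 0) := by
    by_cases h : i = m ∧ j = 2 * m
    · rw [if_pos h, if_pos ⟨h.2, h.1⟩, h.1, h.2]
      simp only [wt]
      push_cast
      rw [← mul_assoc, mul_comm (Real.exp (m * (2 * m))) (1 - pr m), mul_assoc, ← Real.exp_add,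
        mul_comm]
      congr 2
      ring
    · rw [if_neg h, if_neg (fun h' => h ⟨h'.2, h'.1⟩)]
      simp
  have e4 : wt m i * (if i = 2 * m ∧ j = m then (1 - pr m) * Real.exp (-(m * m)) else 0)
      = wt m j * (if j = m ∧ i = 2 * m then 1 - pr m else 0) := by
    by_cases h : i = 2 * m ∧ j = m
    · rw [if_pos h, if_pos ⟨h.2, h.1⟩, h.1, h.2]
      simp only [wt]
      push_cast
      rw [← mul_assoc, mul_comm (Real.exp (m * (2 * m))) (1 - pr m), mul_assoc, ← Real.exp_add,
        mul_comm (Real.exp (m * m))]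
      congr 2
      ring
    · rw [if_neg h, if_neg (fun h' => h ⟨h'.2, h'.1⟩)]
      simp
  rw [e1, e2, e3, e4]
  ring

/-- normalisation -/
noncomputable def Z (m : ℕ) : ℝ := ∑ i : Fin (2 * m + 1), wt m i

lemma Z_pos (m : ℕ) : 0 < Z m :=
  Finset.sum_pos (fun i _ => Real.exp_pos _) Finset.univ_nonempty

/-- total jump rate -/
noncomputable def tot (m i : ℕ) : ℝ := ∑ j : Fin (2 * m + 1), rate m i j

lemma tot_le {m : ℕ} (hm : 2 ≤ m) (i : ℕ) (hi : i ≤ 2 * m) : tot m i ≤ 2 := by
  set F : ℕ → ℝ := fun j => if j = i then 0 else 1 with hF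
  have h0 : rate m i i = 0 := by
    simp only [rate]
    rw [if_neg (by omega), if_neg (by omega), if_neg (by omega), if_neg (by omega)]
    simp
  have h1 : tot m i = act m F i := by
    rw [← sum_rate m F i hi, tot]
    refine Finset.sum_congr rfl fun j _ => ?_
    by_cases hj : (j : ℕ) = i
    · rw [hj, h0]; simp
    · simp [hF, hj]
  rw [h1]
  have p1 := pr_pos hm
  have p2 := pr_le hm
  have ex : Real.exp (-(m : ℝ)) ≤ 1 / 2 := by
    have h2 : (2 : ℝ) ≤ m := by exact_mod_cast hm
    have h3 : (m : ℝ) + 1 ≤ Real.exp m := Real.add_one_le_exp _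
    rw [Real.exp_neg, inv_le_comm₀ (Real.exp_pos _) (by norm_num)]
    linarith
  have ex' : Real.exp (-((m : ℝ) * m)) ≤ 1 / 2 := by
    refine le_trans (Real.exp_le_exp.2 ?_) ex
    have h2 : (2 : ℝ) ≤ m := by exact_mod_cast hm
    nlinarith
  have ex0 := Real.exp_pos (-(m : ℝ))
  have ex0' := Real.exp_pos (-((m : ℝ) * m))
  have f1 := fw_le hm i
  have f1' := fw_pos hm i
  have f2 := fw_le hm (i - 1)
  have f2' := fw_pos hm (i - 1)
  have g1 : fw m (i - 1) * Real.exp (-(m : ℝ)) ≤ 1 / 2 := by nlinarith
  have g2 : (1 - pr m) * Real.exp (-((m : ℝ) * m)) ≤ 1 / 2 := by nlinarith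
  have hFi : F i = 0 := by simp [hF]
  have hF1 : ∀ j, F j ≤ 1 := fun j => by simp only [hF]; split_ifs <;> norm_num
  have hF0 : ∀ j, 0 ≤ F j := fun j => by simp only [hF]; split_ifs <;> norm_num
  have t2 : (if 0 < i then fw m (i - 1) * Real.exp (-m) * (F (i - 1) - F i) else 0) ≤ 1 / 2 := by
    split_ifs
    · rw [hFi, sub_zero]
      have := mul_le_mul g1 (hF1 (i - 1)) (hF0 _) (by norm_num)
      linarith
    · norm_num
  simp only [act]
  by_cases him : i = m
  · have hfm : fw m i = pr m := by simp [fw, him]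
    have hFm : F m = 0 := him ▸ hFi
    rw [if_pos (by omega : i < 2 * m), if_pos him, if_neg (by omega : ¬ i = 2 * m), hfm, hFm, hFi]
    rw [hFi] at t2
    have s1 : pr m * (F (i + 1) - 0) ≤ pr m * 1 :=
      mul_le_mul_of_nonneg_left (by linarith [hF1 (i + 1)]) p1.le
    have s2 : (1 - pr m) * (F (2 * m) - 0) ≤ (1 - pr m) * 1 :=
      mul_le_mul_of_nonneg_left (by linarith [hF1 (2 * m)]) (by linarith)
    linarith
  · rw [if_neg him]
    by_cases hi2 : i = 2 * m
    · have hFm : F (2 * m) = 0 := hi2 ▸ hFi
      rw [if_neg (by omega : ¬ i < 2 * m), if_pos hi2, hFm]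
      have s2 : (1 - pr m) * Real.exp (-((m : ℝ) * m)) * (F m - 0)
          ≤ (1 - pr m) * Real.exp (-((m : ℝ) * m)) * 1 :=
        mul_le_mul_of_nonneg_left (by linarith [hF1 m]) (by
          apply mul_nonneg <;> linarith)
      linarith
    · rw [if_neg hi2, if_pos (by omega : i < 2 * m)]
      have s1 : fw m i * (F (i + 1) - F i) ≤ fw m i * 1 :=
        mul_le_mul_of_nonneg_left (by linarith [hF1 (i + 1)]) f1'.le
      linarith

/-- the chain on `{0, …, 2m}` -/
noncomputable def chain (m : ℕ) (hm : 2 ≤ m) : RevChain (Fin (2 * m + 1)) where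
  K i j := (if i = j then 1 - tot m i / 2 else 0) + rate m i j / 2
  st i := wt m i / Z m
  K_nonneg i j := by
    have h1 := tot_le hm i (by omega)
    have h2 := rate_nonneg hm i j
    split_ifs
    · linarith
    · linarith
  K_sum i := by
    rw [Finset.sum_add_distrib, Finset.sum_ite_eq, if_pos (Finset.mem_univ _), ← Finset.sum_div]
    simp only [tot]
    ring
  st_pos i := div_pos (Real.exp_pos _) (Z_pos m)
  st_sum := by
    rw [← Finset.sum_div]
    exact div_self (Z_pos m).ne'
  reversible i j := by
    have h := wt_rate m hm i j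
    by_cases hij : i = j
    · rw [hij]
    · rw [if_neg hij, if_neg (Ne.symm hij)]
      have hZ := (Z_pos m).ne'
      field_simp
      linarith
  irreducible := by
    have step : ∀ i : ℕ, ∀ (hi : i + 1 < 2 * m + 1),
        (0 : ℝ) < (if (⟨i, by omega⟩ : Fin (2 * m + 1)) = ⟨i + 1, hi⟩ then
          1 - tot m i / 2 else 0) + rate m i (i + 1) / 2 := by
      intro i hi
      rw [if_neg (by simp)]
      have : fw m i ≤ rate m i (i + 1) := by
        have h3 := pr_le hm
        have h5 := Real.exp_pos (-((m : ℝ) * m))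
        simp only [rate]
        rw [if_neg (by omega : ¬ i = i + 1 + 1)]
        simp only [if_true]
        have a1 : 0 ≤ (if i = m ∧ i + 1 = 2 * m then 1 - pr m else 0) := by
          split_ifs <;> linarith
        have a2 : 0 ≤ (if i = 2 * m ∧ i + 1 = m then (1 - pr m) * Real.exp (-(m * m)) else 0) := by
          split_ifs
          · apply mul_nonneg <;> linarith
          · exact le_rfl
        linarith
      have := fw_pos hm i
      linarith
    have step' : ∀ i : ℕ, ∀ (hi : i + 1 < 2 * m + 1),
        (0 : ℝ) < (if (⟨i + 1, hi⟩ : Fin (2 * m + 1)) = ⟨i, by omega⟩ then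
          1 - tot m (i + 1) / 2 else 0) + rate m (i + 1) i / 2 := by
      intro i hi
      rw [if_neg (by simp)]
      have h6 := Real.exp_pos (-(m : ℝ))
      have : fw m i * Real.exp (-m) ≤ rate m (i + 1) i := by
        have h3 := pr_le hm
        have h5 := Real.exp_pos (-((m : ℝ) * m))
        simp only [rate]
        rw [if_neg (by omega : ¬ i = i + 1 + 1)]
        simp only [if_true]
        have a1 : 0 ≤ (if i + 1 = m ∧ i = 2 * m then 1 - pr m else 0) := by
          split_ifs <;> linarith
        have a2 : 0 ≤ (if i + 1 = 2 * m ∧ i = m then (1 - pr m) * Real.exp (-(m * m)) else 0) := by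
          split_ifs
          · apply mul_nonneg <;> linarith
          · exact le_rfl
        linarith
      have := mul_pos (fw_pos hm i) h6
      linarith
    set R : Fin (2 * m + 1) → Fin (2 * m + 1) → Prop := fun a b =>
      (0 : ℝ) < (if a = b then 1 - tot m a / 2 else 0) + rate m a b / 2 with hR
    have up : ∀ (k : ℕ) (hk : k < 2 * m + 1), Relation.ReflTransGen R ⟨0, by omega⟩ ⟨k, hk⟩ := by
      intro k
      induction k with
      | zero => intro _; exact Relation.ReflTransGen.refl
      | succ k ih => intro hk; exact (ih (by omega)).tail (step k hk)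
    have down : ∀ (k : ℕ) (hk : k < 2 * m + 1), Relation.ReflTransGen R ⟨k, hk⟩ ⟨0, by omega⟩ := by
      intro k
      induction k with
      | zero => intro _; exact Relation.ReflTransGen.refl
      | succ k ih => intro hk; exact Relation.ReflTransGen.head (step' k hk) (ih (by omega))
    intro x y
    exact (down x x.2).trans (up y y.2)

lemma gen_chain (m : ℕ) (hm : 2 ≤ m) (F : ℕ → ℝ) (i : Fin (2 * m + 1)) :
    (chain m hm).gen (fun j => F j) i = act m F i / 2 := by
  rw [← sum_rate m F i (by omega), RevChain.gen, Finset.sum_div]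
  refine Finset.sum_congr rfl fun j _ => ?_
  simp only [chain]
  by_cases hij : i = j
  · rw [hij]; simp
  · rw [if_neg hij]; ring

end Pool.Agent.Helper98.EntropyCutoff
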