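import Mathlib
import Pool.Agent.Helper98.EntropyCutoff.Chain

/-!
# Super- and subsolutions for the chain, entropy bounds
-/

open Filter Topology

namespace Pool.Agent.Helper98.EntropyCutoff

lemma ex_le {m : ℕ} (hm : 2 ≤ m) : Real.exp (-(m : ℝ)) ≤ 3 / 20 := by
  have h2 : (2 : ℝ) ≤ m := by exact_mod_cast hm
  have h3 : Real.exp (-(m : ℝ)) ≤ Real.exp (-2) := Real.exp_le_exp.2 (by linarith)
  have h4 : Real.exp (-2) ≤ 3 / 20 := by
    rw [Real.exp_neg, inv_le_comm₀ (Real.exp_pos _) (by norm_num)]
    have h5 : Real.exp 2 = Real.exp 1 * Real.exp 1 := by rw [← Real.exp_add]; norm_num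
    have h6 := Real.exp_one_gt_d9
    rw [h5]
    nlinarith
  exact h3.trans h4

lemma ex_sq_le {m : ℕ} (hm : 2 ≤ m) : Real.exp (-((m : ℝ) * m)) ≤ Real.exp (-(m : ℝ)) := by
  have h2 : (2 : ℝ) ≤ m := by exact_mod_cast hm
  exact Real.exp_le_exp.2 (by nlinarith)

lemma ex_sq_pow_le {m : ℕ} (hm : 2 ≤ m) :
    Real.exp (-((m : ℝ) * m)) * (4 / 3 : ℝ) ^ m ≤ Real.exp (-(m : ℝ)) := by
  have h2 : (2 : ℝ) ≤ m := by exact_mod_cast hm
  have h3 : (4 / 3 : ℝ) ≤ Real.exp (1 / 3) := by
    have := Real.add_one_le_exp (1 / 3 : ℝ)
    linarith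
  have h4 : (4 / 3 : ℝ) ^ m ≤ Real.exp (m * (1 / 3)) := by
    rw [Real.exp_nat_mul]
    exact pow_le_pow_left₀ (by norm_num) h3 m
  calc Real.exp (-((m : ℝ) * m)) * (4 / 3 : ℝ) ^ m
      ≤ Real.exp (-((m : ℝ) * m)) * Real.exp (m * (1 / 3)) := by gcongr
    _ = Real.exp (-((m : ℝ) * m) + m * (1 / 3)) := (Real.exp_add _ _).symm
    _ ≤ Real.exp (-(m : ℝ)) := Real.exp_le_exp.2 (by nlinarith)

/-- supersolution on the whole path -/
noncomputable def VV (m i : ℕ) : ℝ := if i < 2 * m then (4 / 3 : ℝ) ^ (2 * m - i) else 0

/-- supersolution on the common part -/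
noncomputable def VC (m i : ℕ) : ℝ := if i ≤ m then (4 / 3 : ℝ) ^ (m + 1 - i) else 0

/-- probability of the slow branch, from `i` -/
noncomputable def gg (m i : ℕ) : ℝ := if i ≤ m then pr m else if i < 2 * m then 1 else 0

/-- expected remaining number of steps on the slow branch -/
noncomputable def ph (m i : ℕ) : ℝ :=
  if i ≤ m then pr m * (2 * m - i) else (2 * m - i)

/-- number of remaining steps in the first half -/
noncomputable def ph1 (m i : ℕ) : ℝ := if i < m then (m : ℝ) - i else 0

lemma VV_nonneg (m i : ℕ) : 0 ≤ VV m i := by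
  simp only [VV]; split_ifs <;> positivity

lemma VC_nonneg (m i : ℕ) : 0 ≤ VC m i := by
  simp only [VC]; split_ifs <;> positivity

lemma act_VV {m : ℕ} (hm : 2 ≤ m) (i : ℕ) (hi : i ≤ 2 * m) :
    act m (VV m) i ≤ -(1 / 5) * VV m i + (if i = 2 * m then 4 * Real.exp (-m) else 0) := by
  have p1 := pr_pos hm
  have p2 := pr_le hm
  have ex0 := Real.exp_pos (-(m : ℝ))
  have ex1 := ex_le hm
  have f2 := fw_le hm (i - 1)
  have f2' := fw_pos hm (i - 1)
  by_cases hi2 : i = 2 * m
  · subst hi2
    have v0 : VV m (2 * m) = 0 := by simp [VV]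
    have v1 : VV m (2 * m - 1) = 4 / 3 := by
      simp only [VV]
      rw [if_pos (by omega), show 2 * m - (2 * m - 1) = 1 by omega, pow_one]
    have vm : VV m m = (4 / 3 : ℝ) ^ m := by
      simp only [VV]
      rw [if_pos (by omega), show 2 * m - m = m by omega]
    simp only [act]
    rw [if_neg (by omega : ¬ 2 * m < 2 * m), if_pos (by omega : 0 < 2 * m),
      if_neg (by omega : ¬ 2 * m = m), v0, v1, vm]
    simp only [if_true]
    have h1 : fw m (2 * m - 1) * Real.exp (-(m : ℝ)) ≤ 1 * Real.exp (-(m : ℝ)) :=
      mul_le_mul_of_nonneg_right f2 ex0.le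
    have h2 := ex_sq_pow_le hm
    have h3 : (1 - pr m) * Real.exp (-((m : ℝ) * m)) * ((4 / 3 : ℝ) ^ m - 0)
        ≤ Real.exp (-(m : ℝ)) := by
      have : 0 ≤ Real.exp (-((m : ℝ) * m)) * (4 / 3 : ℝ) ^ m := by positivity
      nlinarith
    linarith
  · have hlt : i < 2 * m := by omega
    have vi : VV m i = (4 / 3 : ℝ) ^ (2 * m - i) := by simp [VV, hlt]
    have vpos : 0 < VV m i := by rw [vi]; positivity
    -- forward difference
    have up : VV m (i + 1) - VV m i ≤ -(1 / 4) * VV m i := by
      by_cases h : i + 1 < 2 * m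
      · have : VV m i = 4 / 3 * VV m (i + 1) := by
          simp only [VV]
          rw [if_pos hlt, if_pos h, ← pow_succ']
          congr 1
          omega
        rw [this]
        linarith
      · have : VV m (i + 1) = 0 := by simp [VV, h]
        rw [this]
        linarith
    -- backward term
    have down : (if 0 < i then fw m (i - 1) * Real.exp (-m) * (VV m (i - 1) - VV m i) else 0)
        ≤ (1 / 20) * VV m i := by
      by_cases h : 0 < i
      · rw [if_pos h]
        have e : VV m (i - 1) = 4 / 3 * VV m i := by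
          simp only [VV]
          rw [if_pos hlt, if_pos (by omega), ← pow_succ']
          congr 1
          omega
        rw [e]
        have h1 : fw m (i - 1) * Real.exp (-(m : ℝ)) ≤ 3 / 20 := by nlinarith
        have h2 : 0 ≤ 4 / 3 * VV m i - VV m i := by linarith
        have := mul_le_mul_of_nonneg_right h1 h2
        linarith
      · rw [if_neg h]
        positivity
    simp only [act]
    rw [if_pos hlt, if_neg hi2, if_neg hi2]
    by_cases him : i = m
    · subst him
      rw [if_pos rfl]
      have hf : fw i i = pr i := by simp [fw]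
      have v0 : VV i (2 * i) = 0 := by simp [VV]
      rw [hf, v0]
      have h1 := mul_le_mul_of_nonneg_left up p1.le
      have h2 : (1 - pr i) * (0 - VV i i) ≤ (1 - pr i) * (-(1 / 4) * VV i i) :=
        mul_le_mul_of_nonneg_left (by linarith) (by linarith)
      linarith
    · rw [if_neg him]
      have hf : fw m i = 1 := by simp [fw, him]
      rw [hf]
      linarith

lemma act_VC {m : ℕ} (hm : 2 ≤ m) (i : ℕ) (hi : i ≤ 2 * m) :
    act m (VC m) i ≤ -(1 / 5) * VC m i + 4 * Real.exp (-m) := by
  have p1 := pr_pos hm
  have p2 := pr_le hm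
  have ex0 := Real.exp_pos (-(m : ℝ))
  have ex1 := ex_le hm
  have exs := ex_sq_le hm
  have exs0 := Real.exp_pos (-((m : ℝ) * m))
  have f2 := fw_le hm (i - 1)
  have f2' := fw_pos hm (i - 1)
  have vm : VC m m = 4 / 3 := by
    simp only [VC]
    rw [if_pos le_rfl, show m + 1 - m = 1 by omega, pow_one]
  have v2 : VC m (2 * m) = 0 := by
    simp only [VC]
    rw [if_neg (by omega)]
  have g1 : fw m (i - 1) * Real.exp (-(m : ℝ)) ≤ Real.exp (-(m : ℝ)) := by nlinarith
  have g1' : fw m (i - 1) * Real.exp (-(m : ℝ)) ≤ 3 / 20 := by linarith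
  have g0 : 0 ≤ fw m (i - 1) * Real.exp (-(m : ℝ)) := by positivity
  by_cases him : i ≤ m
  · have vi : VC m i = (4 / 3 : ℝ) ^ (m + 1 - i) := by simp [VC, him]
    have vpos : 0 < VC m i := by rw [vi]; positivity
    have down : (if 0 < i then fw m (i - 1) * Real.exp (-m) * (VC m (i - 1) - VC m i) else 0)
        ≤ (1 / 20) * VC m i := by
      by_cases h : 0 < i
      · rw [if_pos h]
        have e : VC m (i - 1) = 4 / 3 * VC m i := by
          simp only [VC]
          rw [if_pos him, if_pos (by omega), ← pow_succ']
          congr 1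
          omega
        rw [e]
        have h2 : 0 ≤ 4 / 3 * VC m i - VC m i := by linarith
        have := mul_le_mul_of_nonneg_right g1' h2
        linarith
      · rw [if_neg h]
        positivity
    simp only [act]
    rw [if_pos (by omega : i < 2 * m), if_neg (by omega : ¬ i = 2 * m)]
    rcases him.eq_or_lt with h | h
    · subst h
      have v1 : VC i (i + 1) = 0 := by
        simp only [VC]
        rw [if_neg (by omega)]
      have hf : fw i i = pr i := by simp [fw]
      simp only [if_true]
      rw [v1, v2, hf]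
      linarith
    · have hne : i ≠ m := by omega
      rw [if_neg hne]
      have hf : fw m i = 1 := by simp [fw, hne]
      have e : VC m i = 4 / 3 * VC m (i + 1) := by
        simp only [VC]
        rw [if_pos him, if_pos (by omega), ← pow_succ']
        congr 1
        omega
      rw [hf]
      linarith
  · have vi : VC m i = 0 := by simp [VC, him]
    have vi1 : VC m (i + 1) = 0 := by
      simp only [VC]
      rw [if_neg (by omega)]
    have vim : VC m (i - 1) ≤ 4 / 3 := by
      by_cases h : i = m + 1
      · rw [h, show m + 1 - 1 = m by omega, vm]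
      · simp only [VC]
        rw [if_neg (by omega)]
        norm_num
    have vim0 := VC_nonneg m (i - 1)
    simp only [act]
    rw [vi, vi1, if_pos (by omega : 0 < i), if_neg (by omega : ¬ i = m), v2, vm]
    have t1 : (if i < 2 * m then fw m i * (0 - 0) else (0 : ℝ)) = 0 := by simp
    rw [t1]
    have t2 : fw m (i - 1) * Real.exp (-(m : ℝ)) * (VC m (i - 1) - 0)
        ≤ Real.exp (-(m : ℝ)) * (4 / 3) := by
      rw [sub_zero]
      exact mul_le_mul g1 vim vim0 ex0.le
    have t3 : (if i = 2 * m then (1 - pr m) * Real.exp (-((m : ℝ) * m)) * (4 / 3 - 0) else 0)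
        ≤ Real.exp (-(m : ℝ)) * (4 / 3) := by
      split_ifs
      · nlinarith
      · positivity
    linarith

lemma act_gg {m : ℕ} (hm : 2 ≤ m) (i : ℕ) (hi : i ≤ 2 * m) :
    act m (gg m) i ≤ 2 * Real.exp (-m) := by
  have p1 := pr_pos hm
  have p2 := pr_le hm
  have ex0 := Real.exp_pos (-(m : ℝ))
  have exs := ex_sq_le hm
  have exs0 := Real.exp_pos (-((m : ℝ) * m))
  have f2 := fw_le hm (i - 1)
  have f2' := fw_pos hm (i - 1)
  have g2 : gg m (2 * m) = 0 := by
    simp only [gg]
    rw [if_neg (by omega), if_neg (by omega)]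
  have gm : gg m m = pr m := by simp [gg]
  rcases lt_trichotomy i m with him | him | him
  · have gi : gg m i = pr m := by simp only [gg]; rw [if_pos (by omega)]
    have gi1 : gg m (i + 1) = pr m := by simp only [gg]; rw [if_pos (by omega)]
    have gi2 : gg m (i - 1) = pr m := by simp only [gg]; rw [if_pos (by omega)]
    simp only [act]
    rw [if_pos (by omega : i < 2 * m), if_neg (by omega : ¬ i = 2 * m),
      if_neg (by omega : ¬ i = m), gi, gi1, gi2]
    simp only [sub_self, mul_zero, ite_self]
    linarith
  · subst him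
    have gi1 : gg i (i + 1) = 1 := by
      simp only [gg]; rw [if_neg (by omega), if_pos (by omega)]
    have gi2 : gg i (i - 1) = pr i := by simp only [gg]; rw [if_pos (by omega)]
    have hf : fw i i = pr i := by simp [fw]
    simp only [act]
    rw [if_pos (by omega : i < 2 * i), if_neg (by omega : ¬ i = 2 * i), gi1, gi2, gm, g2, hf]
    simp only [sub_self, mul_zero, ite_self, if_true]
    nlinarith
  · have hf : fw m i = 1 := by simp only [fw]; rw [if_neg (by omega)]
    by_cases hi2 : i = 2 * m
    · rw [hi2] at f2 f2' ⊢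
      have gi2 : gg m (2 * m - 1) = 1 := by
        simp only [gg]; rw [if_neg (by omega), if_pos (by omega)]
      simp only [act]
      rw [if_neg (by omega : ¬ 2 * m < 2 * m), if_pos (by omega : 0 < 2 * m),
        if_neg (by omega : ¬ 2 * m = m), gi2, g2, gm]
      simp only [if_true]
      have h1 : fw m (2 * m - 1) * Real.exp (-(m : ℝ)) ≤ 1 * Real.exp (-(m : ℝ)) :=
        mul_le_mul_of_nonneg_right f2 ex0.le
      have h2 : (1 - pr m) * Real.exp (-((m : ℝ) * m)) * (pr m - 0) ≤ Real.exp (-(m : ℝ)) := by
        have h3 : (1 - pr m) * pr m ≤ 1 := by nlinarith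
        have h4 : 0 ≤ (1 - pr m) * pr m := mul_nonneg (by linarith) p1.le
        nlinarith
      linarith
    · have gi : gg m i = 1 := by
        simp only [gg]; rw [if_neg (by omega), if_pos (by omega)]
      have gi1 : gg m (i + 1) ≤ 1 := by
        simp only [gg]; split_ifs <;> linarith
      have gi2 : gg m (i - 1) ≤ 1 := by
        simp only [gg]; split_ifs <;> linarith
      simp only [act]
      rw [if_pos (by omega : i < 2 * m), if_pos (by omega : 0 < i), if_neg (by omega : ¬ i = 2 * m),
        if_neg (by omega : ¬ i = m), gi, hf]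
      have h1 : fw m (i - 1) * Real.exp (-(m : ℝ)) * (gg m (i - 1) - 1) ≤ 0 :=
        mul_nonpos_of_nonneg_of_nonpos (by positivity) (by linarith)
      linarith

lemma act_ph {m : ℕ} (hm : 2 ≤ m) (i : ℕ) (hi : i ≤ 2 * m) :
    -gg m i - m * Real.exp (-m) ≤ act m (ph m) i := by
  have p1 := pr_pos hm
  have p2 := pr_le hm
  have hmr : (2 : ℝ) ≤ m := by exact_mod_cast hm
  have ex0 := Real.exp_pos (-(m : ℝ))
  have exs0 := Real.exp_pos (-((m : ℝ) * m))
  have f2 := fw_le hm (i - 1)
  have f2' := fw_pos hm (i - 1)
  have mex : 0 ≤ m * Real.exp (-(m : ℝ)) := by positivity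
  have ph2 : ph m (2 * m) = 0 := by
    simp only [ph]
    rw [if_neg (by omega)]
    push_cast
    ring
  have phm : ph m m = pr m * m := by
    simp only [ph]
    rw [if_pos le_rfl]
    ring
  rcases lt_trichotomy i m with him | him | him
  · have gi : gg m i = pr m := by simp only [gg]; rw [if_pos (by omega)]
    have hi0 : ph m i = pr m * (2 * m - i) := by simp only [ph]; rw [if_pos (by omega)]
    have hi1 : ph m (i + 1) = pr m * (2 * m - i) - pr m := by
      simp only [ph]
      rw [if_pos (by omega)]
      push_cast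
      ring
    have hf : fw m i = 1 := by simp only [fw]; rw [if_neg (by omega)]
    have down : 0 ≤ (if 0 < i then fw m (i - 1) * Real.exp (-m) * (ph m (i - 1) - ph m i) else 0)
        := by
      split_ifs with h
      · have e : ph m (i - 1) = pr m * (2 * m - i) + pr m := by
          obtain ⟨k, rfl⟩ : ∃ k, i = k + 1 := ⟨i - 1, by omega⟩
          simp only [ph, Nat.add_sub_cancel]
          rw [if_pos (by omega)]
          push_cast
          ring
        rw [e, hi0]
        have : pr m * (2 * m - i) + pr m - pr m * (2 * m - i) = pr m := by ring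
        rw [this]
        positivity
      · exact le_rfl
    simp only [act]
    rw [if_pos (by omega : i < 2 * m), if_neg (by omega : ¬ i = 2 * m),
      if_neg (by omega : ¬ i = m), gi, hf, hi1]
    rw [hi0] at *
    linarith
  · subst him
    have gi : gg i i = pr i := by simp [gg]
    have hi1 : ph i (i + 1) = i - 1 := by
      simp only [ph]
      rw [if_neg (by omega)]
      push_cast
      ring
    have e : ph i (i - 1) = pr i * i + pr i := by
      obtain ⟨k, rfl⟩ : ∃ k, i = k + 1 := ⟨i - 1, by omega⟩
      simp only [ph, Nat.add_sub_cancel]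
      rw [if_pos (by omega)]
      push_cast
      ring
    have hf : fw i i = pr i := by simp [fw]
    simp only [act]
    rw [if_pos (by omega : i < 2 * i), if_pos (by omega : 0 < i), if_neg (by omega : ¬ i = 2 * i),
      gi, hf, hi1, phm, ph2, e]
    simp only [if_true]
    have : 0 ≤ fw i (i - 1) * Real.exp (-(i : ℝ)) * (pr i * i + pr i - pr i * i) := by
      have : pr i * i + pr i - pr i * i = pr i := by ring
      rw [this]
      positivity
    nlinarith
  · have hf : fw m i = 1 := by simp only [fw]; rw [if_neg (by omega)]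
    have hir : (i : ℝ) ≤ 2 * m := by exact_mod_cast hi
    by_cases hi2 : i = 2 * m
    · rw [hi2] at f2 f2' ⊢
      have e : ph m (2 * m - 1) = 1 := by
        simp only [ph]
        rw [if_neg (by omega), Nat.cast_sub (by omega)]
        push_cast
        ring
      have g2 : gg m (2 * m) = 0 := by
        simp only [gg]
        rw [if_neg (by omega), if_neg (by omega)]
      simp only [act]
      rw [if_neg (by omega : ¬ 2 * m < 2 * m), if_pos (by omega : 0 < 2 * m),
        if_neg (by omega : ¬ 2 * m = m), e, ph2, phm, g2]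
      simp only [if_true]
      have h1 : 0 ≤ fw m (2 * m - 1) * Real.exp (-(m : ℝ)) * (1 - 0) := by positivity
      have h2 : 0 ≤ (1 - pr m) * Real.exp (-((m : ℝ) * m)) * (pr m * m - 0) := by
        have : 0 ≤ 1 - pr m := by linarith
        rw [sub_zero]
        positivity
      linarith
    · have gi : gg m i = 1 := by
        simp only [gg]; rw [if_neg (by omega), if_pos (by omega)]
      have hi0 : ph m i = 2 * m - i := by simp only [ph]; rw [if_neg (by omega)]
      have hi1 : ph m (i + 1) = 2 * m - i - 1 := by
        simp only [ph]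
        rw [if_neg (by omega)]
        push_cast
        ring
      have down : -(m * Real.exp (-(m : ℝ)))
          ≤ fw m (i - 1) * Real.exp (-m) * (ph m (i - 1) - ph m i) := by
        by_cases h : i = m + 1
        · subst h
          rw [Nat.add_sub_cancel] at f2 f2' ⊢
          rw [phm, hi0]
          push_cast
          have h1 : -(m : ℝ) ≤ pr m * m - (2 * m - (m + 1)) := by nlinarith
          have h2 : fw m m * Real.exp (-(m : ℝ)) ≤ Real.exp (-(m : ℝ)) := by nlinarith
          have h3 : 0 ≤ fw m m * Real.exp (-(m : ℝ)) := by positivity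
          have h4 := mul_le_mul_of_nonneg_left h1 h3
          have h5 : fw m m * Real.exp (-(m : ℝ)) * m ≤ Real.exp (-(m : ℝ)) * m :=
            mul_le_mul_of_nonneg_right h2 (by positivity)
          linarith
        · have e : ph m (i - 1) = 2 * m - i + 1 := by
            obtain ⟨k, rfl⟩ : ∃ k, i = k + 1 := ⟨i - 1, by omega⟩
            simp only [ph, Nat.add_sub_cancel]
            rw [if_neg (by omega)]
            push_cast
            ring
          rw [e, hi0]
          have : (2 * (m : ℝ) - i + 1 - (2 * m - i)) = 1 := by ring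
          rw [this]
          have : 0 ≤ fw m (i - 1) * Real.exp (-(m : ℝ)) * 1 := by positivity
          linarith
      simp only [act]
      rw [if_pos (by omega : i < 2 * m), if_pos (by omega : 0 < i), if_neg (by omega : ¬ i = 2 * m),
        if_neg (by omega : ¬ i = m), gi, hf, hi1]
      rw [hi0] at *
      linarith

lemma act_ph1 {m : ℕ} (hm : 2 ≤ m) (i : ℕ) (hi : i ≤ 2 * m) :
    -1 ≤ act m (ph1 m) i := by
  have p1 := pr_pos hm
  have p2 := pr_le hm
  have ex0 := Real.exp_pos (-(m : ℝ))
  have exs0 := Real.exp_pos (-((m : ℝ) * m))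
  have f2' := fw_pos hm (i - 1)
  have ph2 : ph1 m (2 * m) = 0 := by simp only [ph1]; rw [if_neg (by omega)]
  have phm : ph1 m m = 0 := by simp only [ph1]; rw [if_neg (by omega)]
  have down : 0 ≤ (if 0 < i then fw m (i - 1) * Real.exp (-m) * (ph1 m (i - 1) - ph1 m i) else 0)
      := by
    split_ifs with h
    · have : ph1 m i ≤ ph1 m (i - 1) := by
        obtain ⟨k, rfl⟩ : ∃ k, i = k + 1 := ⟨i - 1, by omega⟩
        simp only [ph1, Nat.add_sub_cancel]
        push_cast
        split_ifs with h1 h2 h2
        · linarith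
        · omega
        · have : (k : ℝ) < m := by exact_mod_cast h2
          linarith
        · exact le_rfl
      have h3 : 0 ≤ ph1 m (i - 1) - ph1 m i := by linarith
      positivity
    · exact le_rfl
  have up : -1 ≤ (if i < 2 * m then fw m i * (ph1 m (i + 1) - ph1 m i) else 0) := by
    split_ifs with h
    · have h1 : -1 ≤ ph1 m (i + 1) - ph1 m i := by
        simp only [ph1]
        push_cast
        split_ifs with h1 h2 h2
        · linarith
        · omega
        · have : (m : ℝ) ≤ i + 1 := by exact_mod_cast (by omega : m ≤ i + 1)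
          linarith
        · norm_num
      have h2 := fw_le hm i
      have h3 := fw_pos hm i
      nlinarith
    · norm_num
  simp only [act]
  rw [ph2, phm]
  simp only [sub_self, mul_zero, ite_self]
  linarith

end Pool.Agent.Helper98.EntropyCutoff
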