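import Mathlib
import Pool.Agent.Helper98.EntropyCutoff.Estimates

/-!
# Entropy bounds and the main theorem
-/

open Filter Topology

namespace Pool.Agent.Helper98.EntropyCutoff

section Bounds

variable {m : ℕ} (hm : 2 ≤ m)

/-- indicator of not being at the end point -/
noncomputable def io (m i : ℕ) : ℝ := if i < 2 * m then 1 else 0

lemma semi_VV {t : ℝ} (ht : 0 ≤ t) (i : Fin (2 * m + 1)) :
    (chain m hm).semi t (fun j => VV m j) i
      ≤ Real.exp (-(1 / 10) * t) * VV m i + 2 * Real.exp (-m) * t := by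
  refine (chain m hm).semi_le (by norm_num) (by positivity) (fun j => ?_) ht i
  rw [gen_chain]
  have h1 := act_VV hm j (by omega)
  have h2 : (if (j : ℕ) = 2 * m then 4 * Real.exp (-(m : ℝ)) else 0) ≤ 4 * Real.exp (-(m : ℝ)) := by
    split_ifs
    · exact le_rfl
    · positivity
  linarith

lemma semi_VC {t : ℝ} (ht : 0 ≤ t) (i : Fin (2 * m + 1)) :
    (chain m hm).semi t (fun j => VC m j) i
      ≤ Real.exp (-(1 / 10) * t) * VC m i + 2 * Real.exp (-m) * t := by
  refine (chain m hm).semi_le (by norm_num) (by positivity) (fun j => ?_) ht i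
  rw [gen_chain]
  have h1 := act_VC hm j (by omega)
  linarith

lemma semi_gg {t : ℝ} (ht : 0 ≤ t) (i : Fin (2 * m + 1)) :
    (chain m hm).semi t (fun j => gg m j) i ≤ gg m i + Real.exp (-m) * t := by
  have := (chain m hm).semi_le (f := fun j => gg m j) (κ := 0) (β := Real.exp (-m)) le_rfl
    (by positivity) (fun j => ?_) ht i
  · simpa using this
  · rw [gen_chain]
    have h1 := act_gg hm j (by omega)
    linarith

lemma io_le_VV (i : ℕ) : io m i ≤ VV m i := by
  simp only [io, VV]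
  split_ifs
  · exact one_le_pow₀ (by norm_num)
  · exact le_rfl

include hm in
lemma io_le_VC_gg (i : ℕ) : io m i ≤ VC m i + gg m i := by
  have p1 := pr_pos hm
  simp only [io, VC, gg]
  split_ifs with h1 h2 h2
  · have : (1 : ℝ) ≤ (4 / 3) ^ (m + 1 - i) := one_le_pow₀ (by norm_num)
    linarith
  · linarith
  · positivity
  · linarith

/-- probability of not being at the end point, rough bound -/
lemma semi_io_rough {t : ℝ} (ht : 0 ≤ t) (i : Fin (2 * m + 1)) :
    (chain m hm).semi t (fun j => io m j) i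
      ≤ Real.exp (-(1 / 10) * t) * (4 / 3) ^ (2 * m) + 2 * Real.exp (-m) * t := by
  refine ((chain m hm).semi_mono ht (fun j => io_le_VV (m := m) j) i).trans ?_
  refine (semi_VV hm ht i).trans ?_
  have h1 : VV m i ≤ (4 / 3 : ℝ) ^ (2 * m) := by
    simp only [VV]
    split_ifs
    · exact pow_le_pow_right₀ (by norm_num) (by omega)
    · positivity
  have := mul_le_mul_of_nonneg_left h1 (Real.exp_pos (-(1 / 10) * t)).le
  linarith

/-- probability of not being at the end point, fine bound -/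
lemma semi_io_fine {t : ℝ} (ht : 0 ≤ t) (i : Fin (2 * m + 1)) :
    (chain m hm).semi t (fun j => io m j) i
      ≤ pr m + (Real.exp (-(1 / 10) * t) * (4 / 3) ^ (m + 1) + 3 * Real.exp (-m) * t) := by
  have p1 := pr_pos hm
  have e0 := Real.exp_pos (-(1 / 10) * t)
  have e1 : 0 ≤ Real.exp (-(m : ℝ)) * t := by positivity
  by_cases him : (i : ℕ) ≤ m
  · refine ((chain m hm).semi_mono ht (fun j => io_le_VC_gg hm j) i).trans ?_
    rw [(chain m hm).semi_add t (fun j : Fin (2 * m + 1) => VC m j)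
      (fun j : Fin (2 * m + 1) => gg m j) i]
    have h1 := semi_VC hm ht i
    have h2 := semi_gg hm ht i
    have h3 : VC m i ≤ (4 / 3 : ℝ) ^ (m + 1) := by
      simp only [VC]
      rw [if_pos him]
      exact pow_le_pow_right₀ (by norm_num) (by omega)
    have h4 : gg m i = pr m := by simp only [gg]; rw [if_pos him]
    have := mul_le_mul_of_nonneg_left h3 e0.le
    linarith
  · refine ((chain m hm).semi_mono ht (fun j => io_le_VV (m := m) j) i).trans ?_
    have h1 := semi_VV hm ht i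
    have h3 : VV m i ≤ (4 / 3 : ℝ) ^ (m + 1) := by
      simp only [VV]
      split_ifs
      · exact pow_le_pow_right₀ (by norm_num) (by omega)
      · positivity
    have := mul_le_mul_of_nonneg_left h3 e0.le
    linarith

/-- `∑ x^j ≤ 1 + 2 x` for `x ≤ 1/2` -/
lemma geom_le {x : ℝ} (hx : 0 ≤ x) (hx2 : x ≤ 1 / 2) (n : ℕ) :
    ∑ j ∈ Finset.range n, x ^ j ≤ 1 + 2 * x := by
  have h1 : ∑ j ∈ Finset.range n, x ^ j ≤ (1 - x)⁻¹ := by
    have hs := summable_geometric_of_lt_one hx (by linarith : x < 1)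
    rw [← tsum_geometric_of_lt_one hx (by linarith)]
    exact hs.sum_le_tsum _ (fun j _ => by positivity)
  refine h1.trans ?_
  rw [inv_le_comm₀ (by linarith) (by linarith), ← one_div, div_le_iff₀ (by linarith)]
  nlinarith

lemma sum_exp_le (m : ℕ) (c : ℝ) (hc : Real.exp (-c) ≤ 1 / 2) :
    ∑ i : Fin (2 * m + 1), Real.exp (-(c * (2 * m - (i : ℕ)))) ≤ 1 + 2 * Real.exp (-c) := by
  rw [Fin.sum_univ_eq_sum_range (fun i => Real.exp (-(c * (2 * m - (i : ℕ))))) (2 * m + 1)]
  rw [← Finset.sum_range_reflect]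
  refine le_trans (le_of_eq ?_) (geom_le (Real.exp_pos _).le hc (2 * m + 1))
  refine Finset.sum_congr rfl fun j hj => ?_
  rw [Finset.mem_range] at hj
  rw [← Real.exp_nat_mul]
  congr 1
  have : 2 * m + 1 - 1 - j = 2 * m - j := by omega
  rw [this, Nat.cast_sub (by omega)]
  push_cast
  ring

lemma Z_ge (m : ℕ) : Real.exp (m * (2 * m)) ≤ Z m := by
  have h := Finset.single_le_sum (f := fun i : Fin (2 * m + 1) => wt m i)
    (fun i _ => (Real.exp_pos _).le) (Finset.mem_univ ⟨2 * m, by omega⟩)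
  have e : wt m ((⟨2 * m, by omega⟩ : Fin (2 * m + 1)) : ℕ) = Real.exp (m * (2 * m)) := by
    simp [wt]
  rw [← e]
  exact h

include hm in
lemma Z_le : Z m ≤ Real.exp (m * (2 * m)) * (1 + 2 * Real.exp (-m)) := by
  have h1 := ex_le hm
  have h2 := sum_exp_le m m (by linarith)
  have h3 : Z m = Real.exp (m * (2 * m))
      * ∑ i : Fin (2 * m + 1), Real.exp (-((m : ℝ) * (2 * m - (i : ℕ)))) := by
    rw [Finset.mul_sum, Z]
    refine Finset.sum_congr rfl fun i _ => ?_
    rw [wt, ← Real.exp_add]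
    congr 1
    ring
  rw [h3]
  exact mul_le_mul_of_nonneg_left h2 (Real.exp_pos _).le

lemma neg_log_st (i : Fin (2 * m + 1)) :
    -Real.log ((chain m hm).st i) ≤ 2 * (m : ℝ) ^ 2 * io m i + 2 * Real.exp (-m) := by
  have e1 : Real.log ((chain m hm).st i) = m * (i : ℕ) - Real.log (Z m) := by
    simp only [chain, wt]
    rw [Real.log_div (Real.exp_pos _).ne' (Z_pos m).ne', Real.log_exp]
  have e2 : Real.log (Z m) ≤ m * (2 * m) + 2 * Real.exp (-m) := by
    have h1 := Real.log_le_log (Z_pos m) (Z_le hm)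
    rw [Real.log_mul (Real.exp_pos _).ne' (by positivity), Real.log_exp] at h1
    have h2 : Real.log (1 + 2 * Real.exp (-m)) ≤ 2 * Real.exp (-m) := by
      have := Real.log_le_sub_one_of_pos (show (0 : ℝ) < 1 + 2 * Real.exp (-m) by positivity)
      linarith
    linarith
  rw [e1]
  simp only [io]
  split_ifs with h
  · have : (0 : ℝ) ≤ m * (i : ℕ) := by positivity
    nlinarith
  · have : (i : ℕ) = 2 * m := by omega
    rw [this]
    push_cast
    nlinarith

lemma ent_le_of_semi_io {t : ℝ} (ht : 0 ≤ t) {q : ℝ}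
    (h : ∀ i, (chain m hm).semi t (fun j => io m j) i ≤ q) :
    (chain m hm).ent t ≤ 2 * (m : ℝ) ^ 2 * q + 2 * Real.exp (-m) := by
  refine (chain m hm).ent_le fun i => ?_
  refine ((chain m hm).entAt_le ht i (neg_log_st hm)).trans ?_
  rw [(chain m hm).semi_add t (fun j : Fin (2 * m + 1) => 2 * (m : ℝ) ^ 2 * io m j)
      (fun _ : Fin (2 * m + 1) => 2 * Real.exp (-m)) i, (chain m hm).semi_const,
      (chain m hm).semi_smul t (2 * (m : ℝ) ^ 2) (fun j : Fin (2 * m + 1) => io m j) i]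
  have := mul_le_mul_of_nonneg_left (h i) (show (0 : ℝ) ≤ 2 * (m : ℝ) ^ 2 by positivity)
  linarith

include hm in
lemma ex_half : Real.exp (-((m : ℝ) / 2)) ≤ 1 / 2 := by
  have h2 : (2 : ℝ) ≤ m := by exact_mod_cast hm
  have h3 : Real.exp (-((m : ℝ) / 2)) ≤ Real.exp (-1) := Real.exp_le_exp.2 (by linarith)
  have h4 : Real.exp (-1) ≤ 1 / 2 := by
    rw [Real.exp_neg, inv_le_comm₀ (Real.exp_pos _) (by norm_num)]
    have h6 := Real.exp_one_gt_d9
    linarith
  exact h3.trans h4

/-- lower bound for the entropy through a function `f ≤ 2 m - i` -/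
lemma ent_ge {t : ℝ} (ht : 0 ≤ t) (f : ℕ → ℝ) (hf : ∀ i : ℕ, i ≤ 2 * m → f i ≤ 2 * m - i) {q : ℝ}
    (h : q ≤ (chain m hm).semi t (fun j => f j) 0) :
    m / 2 * q - 2 * Real.exp (-((m : ℝ) / 2)) ≤ (chain m hm).ent t := by
  refine le_trans ?_ ((chain m hm).entAt_le_ent t 0)
  have h1 := ex_half hm
  have h2 := sum_exp_le m ((m : ℝ) / 2) h1
  have h3 : ∑ y, (chain m hm).st y * Real.exp (m / 2 * f y)
      ≤ 1 + 2 * Real.exp (-((m : ℝ) / 2)) := by
    refine le_trans (Finset.sum_le_sum fun y _ => ?_) h2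
    have e1 : (chain m hm).st y = wt m y / Z m := rfl
    have e2 : wt m y / Z m ≤ Real.exp (m * (y : ℕ)) / Real.exp (m * (2 * m)) := by
      rw [wt]
      exact div_le_div_of_nonneg_left (Real.exp_pos _).le (Real.exp_pos _) (Z_ge m)
    have e3 : Real.exp (m / 2 * f y) ≤ Real.exp (m / 2 * (2 * m - (y : ℕ))) := by
      refine Real.exp_le_exp.2 (mul_le_mul_of_nonneg_left (hf y (by omega)) (by positivity))
    calc (chain m hm).st y * Real.exp (m / 2 * f y)
        ≤ (Real.exp (m * (y : ℕ)) / Real.exp (m * (2 * m)))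
          * Real.exp (m / 2 * (2 * m - (y : ℕ))) := by
          rw [e1]
          exact mul_le_mul e2 e3 (Real.exp_pos _).le (by positivity)
      _ = Real.exp (-((m : ℝ) / 2 * (2 * m - (y : ℕ)))) := by
          rw [← Real.exp_sub, ← Real.exp_add]
          congr 1
          ring
  have h4 := (chain m hm).le_entAt ht 0 (fun j => m / 2 * f j) (Z := 1 + 2 * Real.exp (-((m : ℝ) / 2)))
    (by positivity) h3
  have h5 : Real.log (1 + 2 * Real.exp (-((m : ℝ) / 2))) ≤ 2 * Real.exp (-((m : ℝ) / 2)) := by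
    have := Real.log_le_sub_one_of_pos
      (show (0 : ℝ) < 1 + 2 * Real.exp (-((m : ℝ) / 2)) by positivity)
    linarith
  rw [(chain m hm).semi_smul t (m / 2) (fun j : Fin (2 * m + 1) => f j) 0] at h4
  have h6 := mul_le_mul_of_nonneg_left h (show (0 : ℝ) ≤ m / 2 by positivity)
  linarith

include hm in
lemma ph_le (i : ℕ) (hi : i ≤ 2 * m) : ph m i ≤ 2 * m - i := by
  have hir : (i : ℝ) ≤ 2 * m := by exact_mod_cast hi
  have p1 := pr_pos hm
  have p2 := pr_le hm
  simp only [ph]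
  split_ifs
  · nlinarith
  · exact le_rfl

lemma ph1_le (i : ℕ) (hi : i ≤ 2 * m) : ph1 m i ≤ 2 * m - i := by
  have hir : (i : ℝ) ≤ 2 * m := by exact_mod_cast hi
  have : (0 : ℝ) ≤ m := by positivity
  simp only [ph1]
  split_ifs
  · linarith
  · linarith

lemma semi_ph {t : ℝ} (ht : 0 ≤ t) :
    2 * m * pr m - t * (pr m / 2 + m * Real.exp (-m) / 2) - Real.exp (-m) / 2 * t ^ 2
      ≤ (chain m hm).semi t (fun j => ph m j) 0 := by
  have h := (chain m hm).le_semi (f := fun j => ph m j) (g := fun j => gg m j / 2)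
    (β₁ := m * Real.exp (-m) / 2) (β₂ := Real.exp (-m) / 2) (by positivity) (fun j => ?_)
    (fun j => ?_) ht 0
  · have e1 : ph m ((0 : Fin (2 * m + 1)) : ℕ) = 2 * m * pr m := by
      simp [ph]
      ring
    have e2 : gg m ((0 : Fin (2 * m + 1)) : ℕ) = pr m := by simp [gg]
    simp only [e1, e2] at h
    exact h
  · rw [gen_chain]
    have := act_ph hm j (by omega)
    linarith
  · rw [gen_chain m hm (fun j => gg m j / 2)]
    have h1 : act m (fun j => gg m j / 2) j = act m (gg m) j / 2 := by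
      simp only [act]
      split_ifs <;> ring
    rw [h1]
    have := act_gg hm j (by omega)
    linarith

lemma semi_ph1 {t : ℝ} (ht : 0 ≤ t) :
    m - t / 2 ≤ (chain m hm).semi t (fun j => ph1 m j) 0 := by
  have h := (chain m hm).le_semi (f := fun j => ph1 m j) (g := fun _ => 0)
    (β₁ := 1 / 2) (β₂ := 0) le_rfl (fun j => ?_)
    (fun j => ?_) ht 0
  · have e1 : ph1 m ((0 : Fin (2 * m + 1)) : ℕ) = m := by
      simp [ph1]
      omega
    simp only [e1] at h
    linarith
  · rw [gen_chain]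
    have := act_ph1 hm j (by omega)
    linarith
  · rw [(chain m hm).gen_const]

lemma gap_chain : 1 / 10 ≤ (chain m hm).gap := by
  refine (chain m hm).gap_ge (V := fun j => VV m j) (b := ⟨2 * m, by omega⟩) ?_ ?_ ?_
    (by norm_num) ?_
  · simp [VV]
  · intro x hx
    have : (x : ℕ) < 2 * m := by
      have : (x : ℕ) ≠ 2 * m := fun h => hx (Fin.ext h)
      omega
    simp only [VV]
    rw [if_pos this]
    positivity
  · intro x hx
    rw [gen_chain]
    have hx' : (x : ℕ) ≠ 2 * m := fun h => hx (Fin.ext h)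
    have := act_VV hm x (by omega)
    rw [if_neg hx'] at this
    linarith
  · refine ⟨fun j => if j = 0 then 1 else 0, ?_⟩
    have h1 : ∑ x, (chain m hm).st x * (if x = 0 then (1 : ℝ) else 0) ^ 2
        = (chain m hm).st 0 := by
      simp
    have h2 : ∑ x, (chain m hm).st x * (if x = 0 then (1 : ℝ) else 0) = (chain m hm).st 0 := by
      simp
    rw [RevChain.var, h1, h2]
    have h3 := (chain m hm).st_pos 0
    have h4 : (chain m hm).st 0 < 1 := by
      have h5 : (chain m hm).st 0 + (chain m hm).st 1 ≤ ∑ x, (chain m hm).st x := by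
        have hne : (0 : Fin (2 * m + 1)) ≠ 1 := by
          intro h
          have := congrArg Fin.val h
          rw [Fin.val_one'] at this
          simp at this
          omega
        rw [← Finset.sum_pair hne]
        exact Finset.sum_le_sum_of_subset_of_nonneg (Finset.subset_univ _)
          (fun z _ _ => ((chain m hm).st_pos z).le)
      have h6 := (chain m hm).st_pos 1
      rw [(chain m hm).st_sum] at h5
      linarith
    nlinarith

end Bounds

section Asymptotics

/-- `m^k x^m → 0` -/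
lemma tendsto_aux (k : ℕ) {x : ℝ} (hx : 0 ≤ x) (hx1 : x < 1) :
    Tendsto (fun m : ℕ => (m : ℝ) ^ k * x ^ m) atTop (𝓝 0) :=
  tendsto_pow_const_mul_const_pow_of_lt_one k hx hx1

lemma exp_neg_pow (m : ℕ) (c : ℝ) : Real.exp (-(c * m)) = Real.exp (-c) ^ m := by
  rw [← Real.exp_nat_mul]
  congr 1
  ring

lemma tendsto_pow_exp (k : ℕ) :
    Tendsto (fun m : ℕ => (m : ℝ) ^ k * Real.exp (-(m : ℝ))) atTop (𝓝 0) := by
  have h : Real.exp (-1) < 1 := by
    rw [Real.exp_lt_one_iff]
    norm_num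
  have := tendsto_aux k (Real.exp_pos (-1)).le h
  refine this.congr fun m => ?_
  rw [← exp_neg_pow m 1, one_mul]

lemma exp_bound : (4 / 3 : ℝ) * Real.exp (-(3 / 10)) < 1 := by
  have h1 := Real.quadratic_le_exp_of_nonneg (show (0 : ℝ) ≤ 3 / 10 by norm_num)
  rw [Real.exp_neg, ← div_eq_mul_inv, div_lt_one (Real.exp_pos _)]
  refine lt_of_lt_of_le ?_ h1
  norm_num

/-- error term in the fine upper bound -/
noncomputable def errA (m : ℕ) : ℝ :=
  2 * (m : ℝ) ^ 2 * (Real.exp (-(3 / 10 * m)) * (4 / 3) ^ (m + 1) + 18 * m * Real.exp (-m))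
    + 2 * Real.exp (-m)

lemma errA_tendsto : Tendsto errA atTop (𝓝 0) := by
  have h1 := (tendsto_aux 2 (by positivity) exp_bound).const_mul (8 / 3)
  have h2 := (tendsto_pow_exp 3).const_mul 36
  have h3 := (tendsto_pow_exp 0).const_mul 2
  have h := (h1.add h2).add h3
  simp only [mul_zero, add_zero] at h
  refine h.congr fun m => ?_
  simp only [errA]
  rw [exp_neg_pow m (3 / 10), mul_pow]
  ring

/-- error term in the rough upper bound -/
noncomputable def errB (m : ℕ) : ℝ :=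
  2 * (m : ℝ) ^ 2 * (Real.exp (-(6 / 10 * m)) * (4 / 3) ^ (2 * m) + 12 * m * Real.exp (-m))
    + 2 * Real.exp (-m)

lemma errB_tendsto : Tendsto errB atTop (𝓝 0) := by
  have hb : ((4 / 3 : ℝ) * Real.exp (-(3 / 10))) ^ 2 < 1 :=
    pow_lt_one₀ (by positivity) exp_bound (by norm_num)
  have h1 := (tendsto_aux 2 (by positivity) hb).const_mul 2
  have h2 := (tendsto_pow_exp 3).const_mul 24
  have h3 := (tendsto_pow_exp 0).const_mul 2
  have h := (h1.add h2).add h3
  simp only [mul_zero, add_zero] at h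
  refine h.congr fun m => ?_
  simp only [errB]
  have e : Real.exp (-(6 / 10 * m)) = (Real.exp (-(3 / 10)) ^ 2) ^ m := by
    rw [← Real.exp_nat_mul, ← Real.exp_nat_mul]
    congr 1
    push_cast
    ring
  rw [e, pow_mul, mul_pow, mul_pow]
  ring

/-- error term in the lower bound -/
noncomputable def errC (m : ℕ) : ℝ :=
  9 / 2 * (m : ℝ) ^ 3 * Real.exp (-m) + 2 * Real.exp (-((m : ℝ) / 2))

lemma errC_tendsto : Tendsto errC atTop (𝓝 0) := by
  have h : Real.exp (-(1 / 2)) < 1 := by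
    rw [Real.exp_lt_one_iff]
    norm_num
  have h1 := (tendsto_pow_exp 3).const_mul (9 / 2)
  have h2 := (tendsto_aux 0 (Real.exp_pos (-(1 / 2))).le h).const_mul 2
  have h3 := h1.add h2
  simp only [mul_zero, add_zero] at h3
  refine h3.congr fun m => ?_
  simp only [errC]
  rw [← exp_neg_pow m (1 / 2)]
  have : -(1 / 2 * (m : ℝ)) = -((m : ℝ) / 2) := by ring
  rw [this]
  ring

variable {m : ℕ} (hm : 2 ≤ m)

include hm in
lemma pr_mul : (m : ℝ) ^ 2 * pr m = 1 := by
  have : (m : ℝ) ≠ 0 := by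
    have : (2 : ℝ) ≤ m := by exact_mod_cast hm
    linarith
  simp only [pr]
  field_simp

lemma ent_upper {t : ℝ} (h1 : 3 * m ≤ t) (h2 : t ≤ 6 * m) :
    (chain m hm).ent t ≤ 2 + errA m := by
  have hm0 : (0 : ℝ) ≤ m := by positivity
  have ht : 0 ≤ t := by linarith
  refine (ent_le_of_semi_io hm ht (fun i => semi_io_fine hm ht i)).trans ?_
  have e1 : Real.exp (-(1 / 10) * t) ≤ Real.exp (-(3 / 10 * m)) :=
    Real.exp_le_exp.2 (by linarith)
  have e2 : 3 * Real.exp (-(m : ℝ)) * t ≤ 18 * m * Real.exp (-m) := by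
    have := mul_le_mul_of_nonneg_left h2 (show 0 ≤ 3 * Real.exp (-(m : ℝ)) by positivity)
    linarith
  have e3 : Real.exp (-(1 / 10) * t) * (4 / 3) ^ (m + 1)
      ≤ Real.exp (-(3 / 10 * m)) * (4 / 3) ^ (m + 1) :=
    mul_le_mul_of_nonneg_right e1 (by positivity)
  have e4 := mul_le_mul_of_nonneg_left (add_le_add e3 e2) (show (0 : ℝ) ≤ 2 * (m : ℝ) ^ 2 by positivity)
  have e5 := pr_mul hm
  simp only [errA]
  linarith

lemma ent_six : (chain m hm).ent (6 * m) ≤ errB m := by
  have hm0 : (0 : ℝ) ≤ m := by positivity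
  have ht : (0 : ℝ) ≤ 6 * m := by linarith
  refine (ent_le_of_semi_io hm ht (fun i => semi_io_rough hm ht i)).trans (le_of_eq ?_)
  simp only [errB]
  have : -(1 / 10) * (6 * (m : ℝ)) = -(6 / 10 * m) := by ring
  rw [this]
  ring

lemma ent_lower {t : ℝ} (h1 : 0 ≤ t) (h2 : t ≤ 18 / 5 * m) :
    1 / 10 - errC m ≤ (chain m hm).ent t := by
  have hm0 : (0 : ℝ) ≤ m := by positivity
  have p1 := pr_pos hm
  have ex0 := Real.exp_pos (-(m : ℝ))
  refine le_trans ?_ (ent_ge hm h1 (ph m) (fun i hi => ph_le hm i hi) (semi_ph hm h1))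
  have e1 : t * (pr m / 2 + m * Real.exp (-m) / 2)
      ≤ 18 / 5 * m * (pr m / 2 + m * Real.exp (-m) / 2) :=
    mul_le_mul_of_nonneg_right h2 (by positivity)
  have e2 : Real.exp (-(m : ℝ)) / 2 * t ^ 2 ≤ Real.exp (-(m : ℝ)) / 2 * (18 / 5 * m) ^ 2 :=
    mul_le_mul_of_nonneg_left (pow_le_pow_left₀ h1 h2 2) (by positivity)
  have e3 : 1 / 5 * m * pr m - 9 * m ^ 2 * Real.exp (-m)
      ≤ 2 * m * pr m - t * (pr m / 2 + m * Real.exp (-m) / 2) - Real.exp (-m) / 2 * t ^ 2 := by
    have : 0 ≤ (m : ℝ) ^ 2 * Real.exp (-m) := by positivity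
    nlinarith
  have e4 := mul_le_mul_of_nonneg_left e3 (show (0 : ℝ) ≤ m / 2 by positivity)
  have e5 := pr_mul hm
  simp only [errC]
  linarith

lemma ent_early {t : ℝ} (h1 : 0 ≤ t) (h2 : t ≤ m) :
    (m : ℝ) ^ 2 / 4 - 2 ≤ (chain m hm).ent t := by
  refine le_trans ?_ (ent_ge hm h1 (ph1 m) (fun i hi => ph1_le i hi) (semi_ph1 hm h1))
  have ex0 : Real.exp (-((m : ℝ) / 2)) ≤ 1 := (ex_half hm).trans (by norm_num)
  have hm0 : (0 : ℝ) ≤ m := by positivity
  have e4 := mul_le_mul_of_nonneg_left (show (m : ℝ) / 2 ≤ m - t / 2 by linarith)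
    (show (0 : ℝ) ≤ m / 2 by positivity)
  linarith

end Asymptotics

/-- the counterexample family -/
noncomputable def fam (n : ℕ) : RevChain (Fin (2 * (n + 2) + 1)) := chain (n + 2) (by omega)

lemma tendsto_shift : Tendsto (fun n : ℕ => n + 2) atTop atTop := tendsto_add_atTop_nat 2

lemma fam_upper : ∀ᶠ n : ℕ in atTop, ∀ t : ℝ, 3 * ((n + 2 : ℕ) : ℝ) ≤ t →
    t ≤ 6 * ((n + 2 : ℕ) : ℝ) → (fam n).ent t ≤ 3 := by
  have h := tendsto_shift.eventually (errA_tendsto.eventually (gt_mem_nhds (zero_lt_one)))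
  filter_upwards [h] with n hn t h1 h2
  have := ent_upper (m := n + 2) (by omega) h1 h2
  simp only [fam]
  linarith

lemma fam_six (ε : ℝ) (hε : 0 < ε) : ∀ᶠ n : ℕ in atTop,
    (fam n).ent (6 * ((n + 2 : ℕ) : ℝ)) ≤ ε := by
  have h := tendsto_shift.eventually (errB_tendsto.eventually (gt_mem_nhds hε))
  filter_upwards [h] with n hn
  exact (ent_six (m := n + 2) (by omega)).trans (le_of_lt hn)

lemma fam_lower : ∀ᶠ n : ℕ in atTop, ∀ t : ℝ, 0 ≤ t →
    t ≤ 18 / 5 * ((n + 2 : ℕ) : ℝ) → 1 / 20 ≤ (fam n).ent t := by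
  have h := tendsto_shift.eventually
    (errC_tendsto.eventually (gt_mem_nhds (show (0 : ℝ) < 1 / 20 by norm_num)))
  filter_upwards [h] with n hn t h1 h2
  have := ent_lower (m := n + 2) (by omega) h1 h2
  simp only [fam]
  linarith

lemma tendsto_cast_shift : Tendsto (fun n : ℕ => ((n + 2 : ℕ) : ℝ)) atTop atTop :=
  tendsto_natCast_atTop_atTop.comp tendsto_shift

lemma tendsto_early : Tendsto (fun n : ℕ => ((n + 2 : ℕ) : ℝ) ^ 2 / 4 - 2) atTop atTop := by
  have h1 : Tendsto (fun n : ℕ => ((n + 2 : ℕ) : ℝ) ^ 2) atTop atTop :=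
    (tendsto_pow_atTop (by norm_num)).comp tendsto_cast_shift
  exact tendsto_atTop_add_const_right _ _ (h1.atTop_div_const (by norm_num))

lemma fam_early (K : ℝ) : ∀ᶠ n : ℕ in atTop, ∀ t : ℝ, 0 ≤ t → t ≤ ((n + 2 : ℕ) : ℝ) →
    K < (fam n).ent t := by
  filter_upwards [tendsto_early.eventually (eventually_gt_atTop K)] with n hn t h1 h2
  exact lt_of_lt_of_le hn (ent_early (m := n + 2) (by omega) h1 h2)

lemma fam_initial : initial (N := fun n => 2 * (n + 2) + 1) fam = ⊤ := by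
  refine Tendsto.limsup_eq ?_
  rw [EReal.tendsto_coe_nhds_top_iff]
  refine tendsto_atTop_mono (fun n => ?_) tendsto_early
  exact ent_early (m := n + 2) (by omega) le_rfl (by positivity)

lemma mix_nonneg {Ω : Type} [Fintype Ω] [DecidableEq Ω] (C : RevChain Ω) (ε : ℝ) :
    0 ≤ C.mix ε := Real.sInf_nonneg fun _ hx => hx.1

lemma fam_mix (ε : ℝ) (hε : 0 < ε) : ∀ᶠ n : ℕ in atTop,
    ((n + 2 : ℕ) : ℝ) ≤ (fam n).mix ε ∧ (fam n).mix ε ≤ 6 * ((n + 2 : ℕ) : ℝ) := by
  filter_upwards [fam_six ε hε, fam_early ε] with n h1 h2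
  have hmem : 6 * ((n + 2 : ℕ) : ℝ) ∈ {t : ℝ | 0 ≤ t ∧ (fam n).ent t ≤ ε} :=
    ⟨by positivity, h1⟩
  refine ⟨le_csInf ⟨_, hmem⟩ fun t ht => ?_, csInf_le ⟨0, fun t ht => ht.1⟩ hmem⟩
  by_contra hlt
  push Not at hlt
  have := h2 t ht.1 hlt.le
  exact absurd ht.2 (not_le.2 this)

theorem main : ∃ (N : ℕ → ℕ) (C : ∀ n, RevChain (Fin (N n))), initial C = ⊤ ∧
    ∀ ε : ℝ, 0 < ε → ProductCondition C ε ∧ ¬ Cutoff C ε ∧
      ¬ WindowCutoff C ε (fun n => ((C n).gap)⁻¹) := by
  refine ⟨fun n => 2 * (n + 2) + 1, fam, fam_initial, fun ε hε => ⟨?_, ?_, ?_⟩⟩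
  · -- the product condition
    have h1 : Tendsto (fun n : ℕ => 1 / 10 * ((n + 2 : ℕ) : ℝ)) atTop atTop :=
      tendsto_cast_shift.const_mul_atTop (by norm_num)
    refine tendsto_atTop_mono' _ ?_ h1
    filter_upwards [fam_mix ε hε] with n hn
    have hg : 1 / 10 ≤ (fam n).gap := gap_chain (m := n + 2) (by omega)
    exact mul_le_mul hg hn.1 (by positivity) (by linarith)
  · -- no cutoff
    intro hcut
    obtain ⟨h1, h2⟩ := hcut (1 / 20) (by norm_num) (by norm_num)
    rw [fam_initial] at h2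
    have h1' := h1.eventually (gt_mem_nhds (show (0 : ℝ) < 1 / 20 by norm_num))
    have h2' := h2.eventually (lt_mem_nhds (EReal.coe_lt_top 3))
    obtain ⟨n, g1, g2, g3, g4, g5⟩ :=
      (h1'.and (h2'.and (fam_mix ε hε |>.and (fam_upper.and fam_lower)))).exists
    have hn : (0 : ℝ) < ((n + 2 : ℕ) : ℝ) := by positivity
    have hmix := mix_nonneg (fam n) ε
    have a1 : 18 / 5 * ((n + 2 : ℕ) : ℝ) < (1 + 1 / 20) * (fam n).mix ε := by
      by_contra hle
      push Not at hle
      have := g5 _ (by positivity) hle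
      linarith
    have a2 := g4 ((1 - 1 / 20) * (fam n).mix ε) (by linarith) (by linarith [g3.2])
    have a3 : (3 : ℝ) < (fam n).ent ((1 - 1 / 20) * (fam n).mix ε) := by
      exact_mod_cast g2
    linarith
  · -- no window cutoff
    rintro ⟨hb, -, h1, h2⟩
    rw [fam_initial] at h2
    have h1' := h1.eventually (gt_mem_nhds (show ((0 : ℝ) : EReal) < ((1 / 20 : ℝ) : EReal) by
      exact_mod_cast (by norm_num : (0 : ℝ) < 1 / 20)))
    have h2' := h2.eventually (lt_mem_nhds (EReal.coe_lt_top 3))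
    obtain ⟨c, hc, hc0⟩ := (h1'.and (eventually_ge_atTop (0 : ℝ))).exists
    obtain ⟨c', hc', hc0'⟩ := (h2'.and (eventually_le_atBot (0 : ℝ))).exists
    have k1 := eventually_lt_of_limsup_lt hc
    have k2 := eventually_lt_of_lt_liminf hc'
    have k3 := tendsto_cast_shift.eventually (eventually_ge_atTop (100 * (c - c')))
    obtain ⟨n, g1, g2, g3, g4, g5, g6⟩ :=
      (k1.and (k2.and (fam_mix ε hε |>.and (fam_upper.and (fam_lower.and k3))))).exists
    have hn : (0 : ℝ) < ((n + 2 : ℕ) : ℝ) := by positivity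
    have hmix := mix_nonneg (fam n) ε
    have hg : 1 / 10 ≤ (fam n).gap := gap_chain (m := n + 2) (by omega)
    have hb0 := hb n
    have hb1 : ((fam n).gap)⁻¹ ≤ 10 := by
      rw [inv_le_comm₀ (by linarith) (by norm_num)]
      linarith
    have g1' : (fam n).ent ((fam n).mix ε + c * ((fam n).gap)⁻¹) < 1 / 20 := by
      exact_mod_cast g1
    have g2' : (3 : ℝ) < (fam n).ent ((fam n).mix ε + c' * ((fam n).gap)⁻¹) := by
      exact_mod_cast g2
    have b1 : c * ((fam n).gap)⁻¹ ≤ 10 * c := by nlinarith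
    have b1' : 0 ≤ c * ((fam n).gap)⁻¹ := by positivity
    have b2 : 10 * c' ≤ c' * ((fam n).gap)⁻¹ := by nlinarith
    have b2' : c' * ((fam n).gap)⁻¹ ≤ 0 := mul_nonpos_of_nonpos_of_nonneg hc0' hb0.le
    have a1 : 18 / 5 * ((n + 2 : ℕ) : ℝ) < (fam n).mix ε + c * ((fam n).gap)⁻¹ := by
      by_contra hle
      push Not at hle
      have := g5 _ (by linarith) hle
      linarith
    have a2 := g4 ((fam n).mix ε + c' * ((fam n).gap)⁻¹) (by linarith) (by linarith [g3.2])
    linarith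

end Pool.Agent.Helper98.EntropyCutoff
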